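import Pool.Agent.Y920.ETC.Stm

/-!
# Rigid elements outside a subgroup of index two: no exception if there is an element which is not
rigid
-/

set_option autoImplicit false

namespace Pool.Agent.U863.CG

open Pool.Agent.Y920.ETC

variable {F : Type} [Field F] {T H : Subgroup Fˣ}

section
variable (h : RigidPair T H) (hneg : (-1 : Fˣ) ∈ T)
  (hidx : ∀ x y : Fˣ, x ∉ H → y ∉ H → x * y ∈ H)

include hneg in
lemma neg_mem_iff (x : Fˣ) : -x ∈ T ↔ x ∈ T := by
  have h1 : -x = -1 * x := by rw [neg_one_mul]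
  rw [h1, T.mul_mem_cancel_left hneg]

include h in
lemma mul_notMem {x t : Fˣ} (hx : x ∉ H) (ht : t ∈ H) : x * t ∉ H :=
  fun h1 => hx ((H.mul_mem_cancel_right ht).1 h1)

include h in
lemma inv_notMem {x : Fˣ} (hx : x ∉ H) : x⁻¹ ∉ H := fun h1 => hx (H.inv_mem_iff.1 h1)

include h hneg in
lemma negH {x : Fˣ} (hx : x ∉ H) : -x ∉ H := by
  have h1 : -x = x * -1 := by rw [mul_neg_one]
  rw [h1]
  exact mul_notMem h hx (h.le hneg)

include h in
/-- sums `z + u` with `z / u ∉ H` -/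
lemma sum_cases {z u w : Fˣ} (hzu : z * u⁻¹ ∉ H) (hw : (w : F) = z + u) :
    (Sm T H (z * u⁻¹) ∧ w * u⁻¹ ∈ T) ∨ (¬ Sm T H (z * u⁻¹) ∧ w * z⁻¹ ∈ T) := by
  have hw2 : ((w * u⁻¹ : Fˣ) : F) = 1 + ((z * u⁻¹ : Fˣ) : F) := by
    push_cast
    rw [hw]
    have := u.ne_zero
    field_simp
    ring
  by_cases hs : Sm T H (z * u⁻¹)
  · left
    refine ⟨hs, ?_⟩
    obtain ⟨-, t, ht, hte⟩ := hs
    have : w * u⁻¹ = t := Units.ext (by rw [hw2, hte])
    rw [this]
    exact ht
  · right
    refine ⟨hs, ?_⟩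
    rcases h.rigid _ hzu with h1 | ⟨t, ht, h1⟩
    · exact absurd ⟨hzu, h1⟩ hs
    · have h2 : w * u⁻¹ = z * u⁻¹ * t := Units.ext (by rw [hw2, h1])
      have h3 : w * z⁻¹ = t := by
        have h4 : w = z * t := by
          have := congrArg (fun s => s * u) h2
          simp only [inv_mul_cancel_right] at this
          rw [this]
          rw [mul_right_comm, inv_mul_cancel_right]
        rw [h4, mul_comm z t, mul_inv_cancel_right]
      rw [h3]
      exact ht

include h hneg in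
/-- for `h ∈ H`, `h ∉ T` all elements of `T + h T` are in `H` -/
lemma sum_mem {g s t w : Fˣ} (hg : g ∈ H) (hgT : g ∉ T) (hs : s ∈ T) (ht : t ∈ T)
    (hw : (w : F) = s + (g * t : Fˣ)) : w ∈ H := by
  by_contra hwH
  -- `g t = w - s`
  have h1 : (-(g * t) : Fˣ) * s⁻¹ ∈ T ∨ (-(g * t) : Fˣ) * w⁻¹ ∈ T := by
    have h2 : ((-(g * t) : Fˣ) : F) = (-w : Fˣ) + (s : Fˣ) := by
      push_cast
      rw [hw]
      push_cast
      ring
    have h3 : -w * s⁻¹ ∉ H := mul_notMem h (negH h hneg hwH) (H.inv_mem (h.le hs))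
    rcases sum_cases h h3 h2 with h4 | h4
    · exact Or.inl h4.2
    · right
      have h5 := h4.2
      have h6 : (-(g * t) : Fˣ) * (-w)⁻¹ = -((-(g * t) : Fˣ) * w⁻¹) := by
        rw [inv_neg, mul_neg]
      rw [h6, neg_mem_iff hneg] at h5
      exact h5
  rcases h1 with h1 | h1
  · apply hgT
    rw [neg_mul, neg_mem_iff hneg, mul_assoc] at h1
    exact (T.mul_mem_cancel_right (T.mul_mem ht (T.inv_mem hs))).1 h1
  · apply hwH
    rw [neg_mul, neg_mem_iff hneg] at h1
    have h2 : (g * t) * ((g * t) * w⁻¹)⁻¹ = w := by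
      rw [mul_inv_rev, inv_inv, mul_comm w, mul_inv_cancel_left]
    rw [← h2]
    exact H.mul_mem (H.mul_mem hg (h.le ht)) (H.inv_mem (h.le h1))

include h in
/-- comparison: `u + v = w`, `w / v ∉ T` -/
lemma compare {z u v w : Fˣ} (hz : z ∉ H) (hu : u ∈ H) (hv : v ∈ H) (hw : w ∈ H)
    (hwv : w * v⁻¹ ∉ T) (he : (w : F) = u + v) (hs : ¬ Sm T H (z * u⁻¹)) :
    ¬ Sm T H (z * w⁻¹) := by
  intro hsw
  have hzu : z * u⁻¹ ∉ H := mul_notMem h hz (H.inv_mem hu)
  have hzw : z * w⁻¹ ∉ H := mul_notMem h hz (H.inv_mem hw)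
  -- `z + w ≠ 0`
  have hne : (z : F) + w ≠ 0 := by
    intro h0
    apply hz
    have h1 : z = -1 * w := by
      apply Units.ext
      push_cast
      linear_combination h0
    rw [h1]
    exact H.mul_mem h.neg hw
  have hne2 : (z : F) + u ≠ 0 := by
    intro h0
    apply hz
    have h1 : z = -1 * u := by
      apply Units.ext
      push_cast
      linear_combination h0
    rw [h1]
    exact H.mul_mem h.neg hu
  -- the sum `z + w`
  have c1 := sum_cases h hzw (w := Units.mk0 _ hne) (by rw [Units.val_mk0])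
  have c2 := sum_cases h hzu (w := Units.mk0 _ hne2) (by rw [Units.val_mk0])
  have c1' : Units.mk0 _ hne * w⁻¹ ∈ T := by
    rcases c1 with c | c
    · exact c.2
    · exact absurd hsw c.1
  have c2' : Units.mk0 _ hne2 * z⁻¹ ∈ T := by
    rcases c2 with c | c
    · exact absurd c.1 hs
    · exact c.2
  -- `z + w = (z + u) + v`
  have hz' : Units.mk0 _ hne2 ∉ H := by
    intro h1
    apply hz
    have h2 : z = Units.mk0 _ hne2 * (Units.mk0 _ hne2 * z⁻¹)⁻¹ := by
      rw [mul_inv_rev, inv_inv, mul_comm z, mul_inv_cancel_left]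
    rw [h2]
    exact H.mul_mem h1 (H.inv_mem (h.le c2'))
  have hzv : Units.mk0 _ hne2 * v⁻¹ ∉ H := mul_notMem h hz' (H.inv_mem hv)
  have c3 := sum_cases h hzv (w := Units.mk0 _ hne) (by
    rw [Units.val_mk0, Units.val_mk0, he]
    ring)
  rcases c3 with c | c
  · -- `(z + w) / v ∈ T`
    apply hwv
    have h2 : w * v⁻¹ = (Units.mk0 _ hne * w⁻¹)⁻¹ * (Units.mk0 _ hne * v⁻¹) := by
      rw [mul_inv_rev, inv_inv, mul_assoc, inv_mul_cancel_left]
    rw [h2]
    exact T.mul_mem (T.inv_mem c1') c.2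
  · -- `(z + w) / (z + u) ∈ T`
    apply hz
    have h2 : z = w * ((Units.mk0 _ hne * w⁻¹) * (Units.mk0 _ hne * (Units.mk0 _ hne2)⁻¹)⁻¹ *
        (Units.mk0 _ hne2 * z⁻¹)⁻¹) := by
      generalize Units.mk0 _ hne = A
      generalize Units.mk0 _ hne2 = B
      rw [mul_inv_rev, mul_inv_rev, inv_inv, inv_inv]
      calc z = (w * w⁻¹) * (A * A⁻¹) * (B * B⁻¹) * z := by
            rw [mul_inv_cancel, mul_inv_cancel, mul_inv_cancel]
            simp
        _ = w * (A * w⁻¹ * (B * A⁻¹) * (z * B⁻¹)) := by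
            simp only [mul_comm, mul_left_comm, mul_assoc]
    rw [h2]
    exact H.mul_mem hw (H.mul_mem (H.mul_mem (h.le c1') (H.inv_mem (h.le c.2)))
      (H.inv_mem (h.le c2')))

include h in
lemma sm_inv {t : Fˣ} (ht : t ∉ H) (hs : ¬ Sm T H t) : Sm T H t⁻¹ := by
  refine ⟨inv_notMem h ht, ?_⟩
  rcases h.rigid t ht with h1 | ⟨r, hr, h1⟩
  · exact absurd ⟨ht, h1⟩ hs
  · refine ⟨r, hr, ?_⟩
    rw [Units.val_mul] at h1
    rw [Units.val_inv_eq_inv_val]
    have := t.ne_zero
    field_simp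
    linear_combination h1

include h in
lemma not_sm_inv {t : Fˣ} (hs : Sm T H t) : ¬ Sm T H t⁻¹ := by
  rintro ⟨-, r, hr, h1⟩
  obtain ⟨ht, s, hs', h2⟩ := hs
  apply ht
  apply h.le
  have h3 : t = s * r⁻¹ := by
    rw [eq_mul_inv_iff_mul_eq]
    apply Units.ext
    rw [Units.val_mul, h1, h2, Units.val_inv_eq_inv_val, mul_add, mul_one,
      mul_inv_cancel₀ t.ne_zero]
    ring
  rw [h3]
  exact T.mul_mem hs' (T.inv_mem hr)

include h hneg hidx in
/-- four cycles -/
lemma cyc {x y z w : Fˣ} (hx : Sm T H x) (hy : Sm T H y) (hz : Sm T H z) (hw : Sm T H w)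
    (hp : x * y * z * w = 1) (h1 : y * z ∉ T) (h2 : x * y ∉ T) : False := by
  obtain ⟨hx1, X, hX, hX'⟩ := hx
  obtain ⟨hy1, Y, hY, hY'⟩ := hy
  obtain ⟨hz1, Z, hZ, hZ'⟩ := hz
  obtain ⟨hw1, W, hW, hW'⟩ := hw
  have hxy : x * y ∈ H := hidx x y hx1 hy1
  have hxw : x * w ∈ H := hidx x w hx1 hw1
  have e1 : z * w = (x * y)⁻¹ := by
    rw [eq_inv_iff_mul_eq_one, ← hp]
    simp only [mul_comm, mul_left_comm]
  have e2 : x * w = (y * z)⁻¹ := by
    rw [eq_inv_iff_mul_eq_one, ← hp]
    simp only [mul_comm, mul_left_comm, mul_assoc]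
  have h3 : x * w ∉ T := by rw [e2]; exact fun h4 => h1 (T.inv_mem_iff.1 h4)
  have h4 : z * w ∉ T := by rw [e1]; exact fun h4 => h2 (T.inv_mem_iff.1 h4)
  have hzw : z * w ∈ H := by rw [e1]; exact H.inv_mem hxy
  -- the sum
  have hne : (W : F) + (z * w * Y : Fˣ) ≠ 0 := by
    intro h0
    apply h4
    have h5 : z * w = -(W * Y⁻¹) := by
      apply Units.ext
      push_cast at h0 ⊢
      have := Y.ne_zero
      field_simp
      linear_combination h0
    rw [h5, neg_mem_iff hneg]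
    exact T.mul_mem hW (T.inv_mem hY)
  have h5 : Units.mk0 _ hne ∈ H := sum_mem h hneg hzw h4 hW hY (by rw [Units.val_mk0])
  -- multiplied by `x`
  have h6 : x * Units.mk0 _ hne ∈ H := by
    refine sum_mem h hneg hxw h3 hX hZ ?_
    push_cast
    rw [Units.val_mk0]
    push_cast
    have hp' : (x : F) * y * z * w = 1 := by
      have := congrArg Units.val hp
      push_cast at this
      exact this
    rw [hX', hY', hZ', hW']
    linear_combination hp'
  exact hx1 ((H.mul_mem_cancel_right h5).1 h6)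

section
variable {b b' : Fˣ} (hb : b ∈ H) (hbT : b ∉ T) (hb'T : b' ∉ T) (hbb : b' * b⁻¹ ∉ T)
  (he : (b' : F) = 1 + b)

include h hneg hb hbT hb'T hbb he

/-- multiplication by `b` preserves small elements -/
lemma inv_b {z : Fˣ} (hz : z ∉ H) : Sm T H z ↔ Sm T H (z * b⁻¹) := by
  have hb' : b' ∈ H := by
    refine sum_mem h hneg hb hbT T.one_mem T.one_mem ?_
    push_cast
    rw [he]
    ring
  have s1 : ¬ Sm T H z → ¬ Sm T H (z * b'⁻¹) := fun hs =>
    compare h hz H.one_mem hb hb' hbb (by push_cast; exact he) (by rwa [inv_one, mul_one])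
  have s2 : ¬ Sm T H (z * b⁻¹) → ¬ Sm T H (z * b'⁻¹) := fun hs =>
    compare h hz hb H.one_mem hb' (by rwa [inv_one, mul_one])
      (by push_cast; rw [he]; ring) hs
  have s3 : ¬ Sm T H (z * b'⁻¹) → ¬ Sm T H z := fun hs => by
    have h1 := compare h (w := 1) (v := -b) hz hb' (by
      rw [← neg_one_mul]; exact H.mul_mem h.neg hb) H.one_mem (by
      rw [one_mul, inv_neg, neg_mem_iff hneg]
      exact fun h4 => hbT (T.inv_mem_iff.1 h4)) (by
      push_cast
      rw [he]
      ring) hs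
    rwa [inv_one, mul_one] at h1
  have s4 : ¬ Sm T H (z * b'⁻¹) → ¬ Sm T H (z * b⁻¹) := fun hs =>
    compare h hz hb' h.neg hb (by
      have : b * (-1)⁻¹ = -b := by rw [inv_neg, inv_one, mul_neg_one]
      rw [this, neg_mem_iff hneg]
      exact hbT) (by
      push_cast
      rw [he]
      ring) hs
  constructor
  · intro h1
    by_contra h2
    exact s3 (s2 h2) h1
  · intro h1
    by_contra h2
    exact s4 (s1 h2) h1

/-- a factor which moves a given element out of `T` -/
lemma choose_b (g : Fˣ) : ∃ β : Fˣ, β ∈ H ∧ (∀ t : Fˣ, t ∉ H → (Sm T H t ↔ Sm T H (t * β⁻¹))) ∧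
    g * β⁻¹ ∉ T := by
  by_cases hg : g ∈ T
  · refine ⟨b, hb, fun t ht => inv_b h hneg hb hbT hb'T hbb he ht, ?_⟩
    intro h1
    exact hbT (T.inv_mem_iff.1 ((T.mul_mem_cancel_left hg).1 h1))
  · exact ⟨1, H.one_mem, fun t _ => by rw [inv_one, mul_one], by rwa [inv_one, mul_one]⟩

include hidx in
/-- there is no exception -/
theorem pcd : PCD T H := by
  have key := choose_b h hneg hb hbT hb'T hbb he
  -- property C
  have hC : ∀ a x c : Fˣ, Sm T H a → Sm T H x → (c : F) = 1 + x → Sm T H (a * c) := by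
    intro a x c ha hx hc
    obtain ⟨β, hβ, hβs, hg⟩ := key (a * x)
    have hcT : c ∈ T := by
      obtain ⟨-, t, ht, hte⟩ := hx
      have : c = t := Units.ext (by rw [hc, hte])
      rw [this]
      exact ht
    have hac : a * c ∉ H := mul_notMem h ha.1 (h.le hcT)
    by_contra hcon
    rw [hβs _ hac] at hcon
    have ha' : Sm T H (a * β⁻¹) := (hβs _ ha.1).1 ha
    have e1 : a * c * β⁻¹ = a * β⁻¹ * c := by rw [mul_right_comm]
    rw [e1] at hcon
    have e2 : a * x * β⁻¹ = a * β⁻¹ * x := by rw [mul_right_comm]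
    rw [e2] at hg
    generalize a * β⁻¹ = a' at ha' hcon hg
    have hac' : a' * c ∉ H := mul_notMem h ha'.1 (h.le hcT)
    have hax : a' * x ∈ H := hidx _ _ ha'.1 hx.1
    have hne : ((a' * c : Fˣ) : F) + (1 : Fˣ) ≠ 0 := by
      intro h0
      apply hac'
      have h1 : a' * c = -1 := by
        apply Units.ext
        push_cast at h0 ⊢
        linear_combination h0
      rw [h1]
      exact h.neg
    obtain ⟨-, A, hA, hA'⟩ := ha'
    have h3 : Units.mk0 _ hne ∈ H := by
      refine sum_mem h hneg hax hg hA T.one_mem ?_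
      rw [Units.val_mk0]
      push_cast
      rw [hA', hc]
      ring
    rcases sum_cases h (z := a' * c) (u := 1) (by rwa [inv_one, mul_one])
      (w := Units.mk0 _ hne) (by rw [Units.val_mk0]) with h4 | h4
    · rw [inv_one, mul_one] at h4
      exact hcon h4.1
    · apply hac'
      have h5 : a' * c = Units.mk0 _ hne * (Units.mk0 _ hne * (a' * c)⁻¹)⁻¹ := by
        rw [mul_inv_rev, inv_inv, mul_comm (a' * c), mul_inv_cancel_left]
      rw [h5]
      exact H.mul_mem h3 (H.inv_mem (h.le h4.2))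
  refine ⟨?_, hC, ?_⟩
  · -- property P
    intro x y z hx hy hxy hz
    by_contra hcon
    have hxyz : x * y * z ∉ H := fun h1 => hz.1 ((H.mul_mem_cancel_left hxy).1 h1)
    have hw : Sm T H (x * y * z)⁻¹ := sm_inv h hxyz hcon
    obtain ⟨β, hβ, hβs, hg1⟩ := key (y * z)
    obtain ⟨γ, hγ, hγs, hg2⟩ := key (x * y)
    have hy' : Sm T H (y * γ⁻¹) := (hγs _ hy.1).1 hy
    have hz' : Sm T H (z * γ) := by
      rw [hγs _ (mul_notMem h hz.1 hγ), mul_inv_cancel_right]
      exact hz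
    have hz'' : Sm T H (z * γ * β⁻¹) := (hβs _ hz'.1).1 hz'
    have hw' : Sm T H ((x * y * z)⁻¹ * β) := by
      rw [hβs _ (mul_notMem h hw.1 hβ), mul_inv_cancel_right]
      exact hw
    refine cyc h hneg hidx hx hy' hz'' hw' ?_ ?_ ?_
    · calc x * (y * γ⁻¹) * (z * γ * β⁻¹) * ((x * y * z)⁻¹ * β) =
          (x * y * z) * (x * y * z)⁻¹ * (γ * γ⁻¹) * (β * β⁻¹) := by
            simp only [mul_comm, mul_left_comm, mul_assoc]
        _ = 1 := by simp
    · have e1 : y * γ⁻¹ * (z * γ * β⁻¹) = y * z * β⁻¹ * (γ * γ⁻¹) := by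
        simp only [mul_comm, mul_left_comm, mul_assoc]
      rw [e1, mul_inv_cancel, mul_one]
      exact hg1
    · rw [← mul_assoc]
      exact hg2
  · -- property D
    intro x a d hx ha hd h1
    have hcT : a * d ∈ T := by
      obtain ⟨-, t, ht, hte⟩ := hx
      have : a * d = t := Units.ext (by rw [hte, h1, Units.val_mul])
      rw [this]
      exact ht
    have hx' : Sm T H (-x * (a * d)⁻¹) := by
      refine ⟨mul_notMem h (negH h hneg hx.1) (H.inv_mem (h.le hcT)), (a * d)⁻¹,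
        T.inv_mem hcT, ?_⟩
      push_cast
      have h2 := a.ne_zero
      have h3 := d.ne_zero
      field_simp
      linear_combination h1
    have h2 := hC a _ (a * d)⁻¹ ha hx' (by
      push_cast
      have h2 := a.ne_zero
      have h3 := d.ne_zero
      field_simp
      linear_combination h1)
    have e1 : a * (a * d)⁻¹ = d⁻¹ := by
      rw [mul_inv_rev, mul_comm d⁻¹, mul_inv_cancel_left]
    rw [e1] at h2
    exact not_sm_inv h hd h2

end

end

end Pool.Agent.U863.CG
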