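import Pool.Agent.U863.CG.Glue


/-! Group extensions of the structures of edge-coloured graphs. -/

set_option autoImplicit false

namespace Pool.Agent.U863.CG

open Pool.Agent.H315R3.ETC

variable {V V₁ K : Type} [Fintype V] [Fintype V₁]

/-- adding a coordinate -/
def cone (f : Option V₁ ≃ V) (a : V₁ → ZMod 2) (x : ZMod 2) : V → ZMod 2 :=
  fun v => (f.symm v).elim x a

/-- the isomorphism of the groups -/
def coneEquiv (f : Option V₁ ≃ V) :
    Multiplicative (V₁ → ZMod 2) × C2 ≃* Multiplicative (V → ZMod 2) where
  toFun p := Multiplicative.ofAdd (cone f (Multiplicative.toAdd p.1) (Multiplicative.toAdd p.2))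
  invFun a := (Multiplicative.ofAdd fun i => Multiplicative.toAdd a (f (some i)),
    Multiplicative.ofAdd (Multiplicative.toAdd a (f none)))
  left_inv p := by
    refine Prod.ext ?_ ?_
    · funext i
      show (f.symm (f (some i))).elim _ _ = _
      rw [Equiv.symm_apply_apply]
      rfl
    · show (f.symm (f none)).elim _ _ = _
      rw [Equiv.symm_apply_apply]
      rfl
  right_inv a := by
    funext v
    show (f.symm v).elim ((Multiplicative.toAdd a) (f none))
      (fun i => (Multiplicative.toAdd a) (f (some i))) = (Multiplicative.toAdd a) v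
    rcases hv : f.symm v with - | i
    · rw [Option.elim_none, ← hv, Equiv.apply_symm_apply]
    · rw [Option.elim_some, ← hv, Equiv.apply_symm_apply]
  map_mul' p q := by
    funext v
    show (f.symm v).elim (Multiplicative.toAdd p.2 + Multiplicative.toAdd q.2)
      (Multiplicative.toAdd p.1 + Multiplicative.toAdd q.1) =
      (f.symm v).elim _ _ + (f.symm v).elim _ _
    rcases f.symm v with - | i
    · rfl
    · rfl

/-- the part of the value which comes from the new vertex -/
def dd (a b : V₁ → ZMod 2) (x y : ZMod 2) (i : V₁) : ZMod 2 := a i * y + b i * x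

omit [Fintype V₁] in
lemma dd_eq (a b : Multiplicative (V₁ → ZMod 2)) (x y : C2) :
    Multiplicative.toAdd (pw (pw (1 : Multiplicative (V₁ → ZMod 2)) x) y * pw a y * pw b x) =
      dd (Multiplicative.toAdd a) (Multiplicative.toAdd b) (Multiplicative.toAdd x)
        (Multiplicative.toAdd y) := by
  have h1 : ∀ (z : Multiplicative (V₁ → ZMod 2)) (w : C2),
      Multiplicative.toAdd (pw z w) = fun i => Multiplicative.toAdd z i * Multiplicative.toAdd w := by
    intro z w
    have h2 : w = 1 ∨ w = gen := by
      have : ∀ w : Multiplicative (ZMod 2), w = 1 ∨ w = Multiplicative.ofAdd 1 := by decide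
      exact this w
    unfold pw
    rcases h2 with rfl | rfl
    · rw [if_pos rfl]
      funext i
      show (0 : ZMod 2) = _ * 0
      rw [mul_zero]
    · rw [if_neg (by decide)]
      funext i
      show (Multiplicative.toAdd z) i = _ * 1
      rw [mul_one]
  have h3 : pw (pw (1 : Multiplicative (V₁ → ZMod 2)) x) y = 1 := by
    unfold pw
    simp
  rw [h3, one_mul, toAdd_mul, h1, h1]
  rfl

open Classical in
lemma bt_cone (c : V → V → Option K) (hc : ∀ i j, c i j = c j i) (f : Option V₁ ≃ V) (h : V₁ → K)
    (h0 : c (f none) (f none) = none) (h1 : ∀ i, c (f none) (f (some i)) = some (h i))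
    (a b : V₁ → ZMod 2) (x y : ZMod 2) (t : K) :
    bt c (cone f a x) (cone f b y) t =
      bt (fun i j => c (f (some i)) (f (some j))) a b t +
      ∑ i, if h i = t then dd a b x y i else 0 := by
  have h1' : ∀ i, c (f (some i)) (f none) = some (h i) := fun i => by
    rw [hc]; exact h1 i
  unfold bt
  rw [← f.sum_comp, Fintype.sum_option, ← f.sum_comp, Fintype.sum_option, h0,
    if_neg (by simp), zero_add]
  have e1 : ∀ i : V₁, (∑ v : V, if c (f (some i)) v = some t then
      cone f a x (f (some i)) * cone f b y v else 0) =
      (if h i = t then a i * y else 0) +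
      ∑ j, if c (f (some i)) (f (some j)) = some t then a i * b j else 0 := by
    intro i
    rw [← f.sum_comp, Fintype.sum_option, h1']
    simp only [cone, Equiv.symm_apply_apply, Option.elim_some, Option.elim_none,
      Option.some.injEq]
  simp only [e1, h1]
  rw [Finset.sum_add_distrib]
  have e2 : ∑ i, (if h i = t then dd a b x y i else 0) =
      (∑ i, if h i = t then a i * y else 0) + ∑ i, if h i = t then b i * x else 0 := by
    rw [← Finset.sum_add_distrib]
    refine Finset.sum_congr rfl fun i _ => ?_
    unfold dd
    split_ifs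
    · rfl
    · rw [add_zero]
  rw [e2]
  simp only [cone, Equiv.symm_apply_apply, Option.elim_some, Option.elim_none, Option.some.injEq]
  have e3 : ∀ i, (if h i = t then x * b i else 0) = if h i = t then b i * x else 0 := by
    intro i
    rw [mul_comm]
  simp only [e3]
  ring

/-- adding a vertex which is joined to all others by edges of new colours -/
theorem iso_ext {K₁ : Type} {c : V → V → Option K} {c₁ : V₁ → V₁ → Option K₁}
    (hc : ∀ i j, c i j = c j i) (f : Option V₁ ≃ V) {g : K₁ → K}
    (hg : Function.Injective g) {h : V₁ → K} (hh : Function.Injective h)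
    (h0 : c (f none) (f none) = none) (h1 : ∀ i, c (f none) (f (some i)) = some (h i))
    (h2 : ∀ i j, c (f (some i)) (f (some j)) = (c₁ i j).map g)
    (h3 : ∀ i j k, c (f (some i)) (f (some j)) ≠ some (h k)) :
    Iso (ext (colourStructure c₁)) (colourStructure c) := by
  classical
  have key : ∀ (a b a' b' : V₁ → ZMod 2) (x y x' y' : ZMod 2),
      (bt c₁ a b = bt c₁ a' b' ∧ dd a b x y = dd a' b' x' y') ↔
        bt c (cone f a x) (cone f b y) = bt c (cone f a' x') (cone f b' y') := by
    intro a b a' b' x y x' y'
    rw [← bt_map_iff hg h2]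
    constructor
    · rintro ⟨h4, h5⟩
      funext t
      rw [bt_cone c hc f h h0 h1, bt_cone c hc f h h0 h1, h4, h5]
    · intro h4
      have h5 : ∀ t, bt c (cone f a x) (cone f b y) t = bt c (cone f a' x') (cone f b' y') t :=
        fun t => congrFun h4 t
      simp only [bt_cone c hc f h h0 h1] at h5
      have hs : ∀ (F : V₁ → ZMod 2) (i : V₁), (∑ j, if h j = h i then F j else 0) = F i := by
        intro F i
        rw [Finset.sum_eq_single i]
        · rw [if_pos rfl]
        · intro j _ hj
          rw [if_neg fun e => hj (hh e)]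
        · intro hi
          exact absurd (Finset.mem_univ i) hi
      constructor
      · funext t
        by_cases ht : ∃ i, h i = t
        · obtain ⟨i, rfl⟩ := ht
          rw [bt_unused (c := fun i j => c (f (some i)) (f (some j))) _ _ _
            (fun k l => h3 k l i), bt_unused (c := fun i j => c (f (some i)) (f (some j))) _ _ _
            (fun k l => h3 k l i)]
        · push Not at ht
          have h6 := h5 t
          have e1 : ∀ F : V₁ → ZMod 2, (∑ i, if h i = t then F i else 0) = 0 := by
            intro F
            exact Finset.sum_eq_zero fun i _ => if_neg (ht i)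
          rwa [e1, e1, add_zero, add_zero] at h6
      · funext i
        have h6 := h5 (h i)
        rwa [bt_unused (c := fun i j => c (f (some i)) (f (some j))) _ _ _
            (fun k l => h3 k l i), bt_unused (c := fun i j => c (f (some i)) (f (some j))) _ _ _
            (fun k l => h3 k l i), hs, hs, zero_add, zero_add] at h6
  refine ⟨coneEquiv f, map_one (coneEquiv f), ?_⟩
  rintro ⟨a, x⟩ ⟨b, y⟩ ⟨a', x'⟩ ⟨b', y'⟩
  refine Iff.trans Prod.ext_iff (Iff.trans ?_ (key a b a' b' x y x' y'))
  have e1 := dd_eq a b x y
  have e2 := dd_eq a' b' x' y'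
  constructor
  · rintro ⟨h4, h5⟩
    refine ⟨h4, ?_⟩
    have h6 := congrArg Multiplicative.toAdd h5
    exact (e1.symm.trans h6).trans e2
  · rintro ⟨h4, h5⟩
    refine ⟨h4, ?_⟩
    exact Multiplicative.toAdd.injective ((e1.trans h5).trans e2.symm)

end Pool.Agent.U863.CG
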