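import Mathlib
import Pool.Agent.H315R3.ETC.Defs

/-! Quaternionic structures of edge-coloured graphs: definitions and basic lemmas. -/

set_option autoImplicit false

namespace Pool.Agent.U863.CG

open Pool.Agent.H315R3.ETC

variable {V K : Type} [Fintype V]

/-- an edge-coloured graph on `V`: `c i j = some t` if `i` and `j` are joined by an edge of the colour
`t`, and `c i j = none` if they are not joined; edges with a common vertex have different colours -/
structure ProperColouring {V K : Type} (c : V → V → Option K) : Prop where
  symm : ∀ i j, c i j = c j i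
  irrefl : ∀ i, c i i = none
  proper : ∀ i j k t, c i j = some t → c i k = some t → j = k

open Classical in
/-- the coefficient of the colour `t` in `∑ (a_i b_j + a_j b_i) [colour of ij]` -/
noncomputable def bt (c : V → V → Option K) (a b : V → ZMod 2) (t : K) : ZMod 2 :=
  ∑ i, ∑ j, if c i j = some t then a i * b j else 0

/-- the structure of the edge-coloured graph `c`: `G = (Z/2)^V`, `-1 = 1`, and `q(a,b)` is the sum
over the edges `ij` of `(a_i b_j + a_j b_i)` times the colour of `ij` in `(Z/2)^K` -/
noncomputable def colourStructure (c : V → V → Option K) : QData :=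
  ⟨Multiplicative (V → ZMod 2), K → ZMod 2, 1,
    fun a b => bt c (Multiplicative.toAdd a) (Multiplicative.toAdd b), 0⟩

variable {c : V → V → Option K}

lemma bt_add_left (a b x : V → ZMod 2) : bt c (a + b) x = bt c a x + bt c b x := by
  classical
  funext t
  simp only [bt, Pi.add_apply, ← Finset.sum_add_distrib]
  refine Finset.sum_congr rfl fun i _ => Finset.sum_congr rfl fun j _ => ?_
  split_ifs
  · ring
  · ring

lemma bt_add_right (a b x : V → ZMod 2) : bt c x (a + b) = bt c x a + bt c x b := by
  classical
  funext t
  simp only [bt, Pi.add_apply, ← Finset.sum_add_distrib]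
  refine Finset.sum_congr rfl fun i _ => Finset.sum_congr rfl fun j _ => ?_
  split_ifs
  · ring
  · ring

lemma bt_zero_left (x : V → ZMod 2) : bt c 0 x = 0 := by
  have := bt_add_left (c := c) 0 0 x
  rw [add_zero] at this
  exact left_eq_add.1 this

lemma bt_zero_right (x : V → ZMod 2) : bt c x 0 = 0 := by
  have := bt_add_right (c := c) 0 0 x
  rw [add_zero] at this
  exact left_eq_add.1 this

lemma bt_symm (h : ProperColouring c) (a b : V → ZMod 2) : bt c a b = bt c b a := by
  classical
  funext t
  unfold bt
  rw [Finset.sum_comm]
  refine Finset.sum_congr rfl fun i _ => Finset.sum_congr rfl fun j _ => ?_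
  rw [h.symm j i, mul_comm]

open Classical in
/-- basis vectors -/
noncomputable def e {V : Type} (i : V) : V → ZMod 2 := Pi.single i 1

omit [Fintype V] in
lemma e_same (i : V) : e i i = 1 := by classical simp [e]

omit [Fintype V] in
lemma e_ne {i j : V} (h : i ≠ j) : e i j = 0 := by
  classical
  unfold e
  exact Pi.single_eq_of_ne (Ne.symm h) 1

open Classical in
lemma bt_e_left (i : V) (x : V → ZMod 2) (t : K) :
    bt c (e i) x t = ∑ j, if c i j = some t then x j else 0 := by
  unfold bt
  rw [Finset.sum_eq_single i]
  · refine Finset.sum_congr rfl fun j _ => ?_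
    rw [e_same, one_mul]
  · intro k _ hk
    refine Finset.sum_eq_zero fun j _ => ?_
    rw [e_ne (Ne.symm hk), zero_mul, ite_self]
  · intro h
    exact absurd (Finset.mem_univ i) h

lemma bt_some (h : ProperColouring c) {i j : V} {t : K} (hc : c i j = some t) (x : V → ZMod 2) :
    bt c (e i) x t = x j := by
  classical
  rw [bt_e_left, Finset.sum_eq_single j]
  · rw [if_pos hc]
  · intro k _ hk
    rw [if_neg]
    intro h2
    exact hk (h.proper i k j t h2 hc)
  · intro h
    exact absurd (Finset.mem_univ j) h

lemma bt_none {i : V} {t : K} (hc : ∀ j, c i j ≠ some t) (x : V → ZMod 2) :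
    bt c (e i) x t = 0 := by
  classical
  rw [bt_e_left]
  exact Finset.sum_eq_zero fun j _ => if_neg (hc j)

open Classical in
/-- the value at two joined vertices -/
lemma bt_edge (h : ProperColouring c) {i j : V} {t : K} (hc : c i j = some t) :
    bt c (e i) (e j) = Pi.single t 1 := by
  funext s
  by_cases hs : s = t
  · subst hs
    rw [bt_some h hc, e_same, Pi.single_eq_same]
  · rw [Pi.single_eq_of_ne hs]
    by_cases h2 : ∃ k, c i k = some s
    · obtain ⟨k, hk⟩ := h2
      rw [bt_some h hk, e_ne]
      rintro rfl
      rw [hk] at hc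
      exact hs (Option.some.inj hc)
    · push Not at h2
      exact bt_none h2 _

lemma bt_nonedge (h : ProperColouring c) {i j : V} (hc : c i j = none) :
    bt c (e i) (e j) = 0 := by
  funext s
  by_cases h2 : ∃ k, c i k = some s
  · obtain ⟨k, hk⟩ := h2
    rw [bt_some h hk, e_ne]
    · rfl
    · rintro rfl
      rw [hk] at hc
      exact Option.some_ne_none _ hc
  · push Not at h2
    exact bt_none h2 _

/-- linkage -/
def Linked (c : V → V → Option K) : Prop :=
  ∀ a b x y : V → ZMod 2, bt c a b = bt c x y → ∃ z, bt c a b = bt c a z ∧ bt c x y = bt c x z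

lemma linked_of_isQuat (h : IsQuat (colourStructure c)) : Linked c := by
  intro a b x y hab
  obtain ⟨z, h1, h2⟩ := h.qs4 (Multiplicative.ofAdd a) (Multiplicative.ofAdd b)
    (Multiplicative.ofAdd x) (Multiplicative.ofAdd y) hab
  exact ⟨Multiplicative.toAdd z, h1, h2⟩

end Pool.Agent.U863.CG
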