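import Pool.Agent.U863.CG.Base

/-! The combinatorics of linked edge-coloured graphs. -/

set_option autoImplicit false

namespace Pool.Agent.U863.CG

variable {V K : Type} [Fintype V] {c : V → V → Option K}

section
variable (h : ProperColouring c) (hL : Linked c)

include h hL

/-- edges of the same colour are not joined -/
theorem no_edge {i j k l : V} {t : K} (hij : c i j = some t) (hkl : c k l = some t) (hjl : j ≠ l) :
    c k j = none := by
  obtain ⟨x, h1, h2⟩ := hL (e i) (e j) (e k) (e l) ((bt_edge h hij).trans (bt_edge h hkl).symm)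
  by_contra hne
  obtain ⟨s, hs⟩ := Option.ne_none_iff_exists'.1 hne
  have h3 := congrFun h1 t
  rw [bt_some h hij, bt_some h hij, e_same] at h3
  have h4 := congrFun h2 s
  rw [bt_some h hs, bt_some h hs, e_ne hjl.symm, ← h3] at h4
  exact zero_ne_one h4

/-- the argument for twins -/
theorem twin_aux {i j k l m : V} {s t : K} (hij : c i j = some t) (hkl : c k l = some t)
    (hik : i ≠ k) (hm : c m i = some s) (hmk : c m k = none) (hl : ∀ q, c l q ≠ some s) :
    False := by
  have e1 : bt c (e j) (e i) = bt c (e l + e m) (e k) := by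
    rw [bt_add_left, bt_nonedge h hmk, add_zero, bt_edge h ((h.symm j i).trans hij),
      bt_edge h ((h.symm l k).trans hkl)]
  obtain ⟨x, h1, h2⟩ := hL _ _ _ _ e1
  have h3 := congrFun h1 t
  rw [bt_some h ((h.symm j i).trans hij), bt_some h ((h.symm j i).trans hij), e_same] at h3
  have h4 := congrFun h2 s
  rw [bt_add_left, bt_add_left, Pi.add_apply, Pi.add_apply, bt_none hl, bt_none hl,
    bt_some h hm, bt_some h hm, e_ne hik.symm, ← h3] at h4
  revert h4
  decide

/-- a vertex joined to one end of an edge is joined to all ends of the edges of the same colour -/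
theorem twin {i j k l m : V} {t : K} (hij : c i j = some t) (hkl : c k l = some t)
    (hik : i ≠ k) (hil : i ≠ l) (hm : c m i ≠ none) (hmj : m ≠ j) : c m k ≠ none := by
  intro hmk
  obtain ⟨s, hs⟩ := Option.ne_none_iff_exists'.1 hm
  have hst : s ≠ t := by
    rintro rfl
    exact hmj (h.proper i m j s ((h.symm i m).trans hs) hij)
  by_cases hl : ∀ q, c l q ≠ some s
  · exact twin_aux h hL hij hkl hik hs hmk hl
  · push Not at hl
    obtain ⟨q, hq⟩ := hl
    have hk : ∀ r, c k r ≠ some s := by
      intro r hr
      by_cases hlr : l = r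
      · subst hlr
        rw [hkl] at hr
        exact hst (Option.some.inj hr).symm
      · have := no_edge h hL ((h.symm q l).trans hq) hr hlr
        rw [hkl] at this
        exact Option.some_ne_none _ this
    have hml : c m l = none := no_edge h hL ((h.symm q l).trans hq) hs hil.symm
    exact twin_aux h hL hij ((h.symm l k).trans hkl) hil hs hml hk

/-- the first edge of a path of two edges is the only edge of its colour -/
theorem unique {i j m : V} {t : K} (hij : c i j = some t) (hjm : c j m ≠ none)
    (him : c i m = none) (hmi : m ≠ i) (p q : V) (hpq : c p q = some t) :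
    (p = i ∧ q = j) ∨ (p = j ∧ q = i) := by
  by_cases h1 : p = i
  · subst h1
    exact Or.inl ⟨rfl, h.proper p q j t hpq hij⟩
  by_cases h2 : p = j
  · subst h2
    exact Or.inr ⟨rfl, h.proper p q i t hpq ((h.symm p i).trans hij)⟩
  exfalso
  have h3 : q ≠ i := by
    rintro rfl
    exact h2 (h.proper q p j t ((h.symm q p).trans hpq) hij)
  have h4 : q ≠ j := by
    rintro rfl
    exact h1 (h.proper q p i t ((h.symm q p).trans hpq) ((h.symm q i).trans hij))
  have h5 : c m p ≠ none := twin h hL ((h.symm j i).trans hij) hpq (Ne.symm h2) (Ne.symm h4)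
    (by rw [h.symm]; exact hjm) hmi
  have h6 : m ≠ q := by
    rintro rfl
    have := no_edge h hL hij ((h.symm m p).trans hpq) (Ne.symm h2)
    rw [h.symm] at this
    exact hjm this
  exact twin h hL hpq hij h1 h2 h5 h6 ((h.symm m i).trans him)

/-- there is no path `i j k l` such that `i`, `k` and `j`, `l` are not joined -/
theorem no_path {i j k l : V} (hij : c i j ≠ none) (hjk : c j k ≠ none) (hkl : c k l ≠ none)
    (hik : c i k = none) (hjl : c j l = none) (nik : i ≠ k) (njl : j ≠ l) : False := by
  obtain ⟨a, ha⟩ := Option.ne_none_iff_exists'.1 hij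
  obtain ⟨b, hb⟩ := Option.ne_none_iff_exists'.1 hjk
  obtain ⟨d, hd⟩ := Option.ne_none_iff_exists'.1 hkl
  have nij : i ≠ j := by
    rintro rfl
    exact hij (h.irrefl i)
  have njk : j ≠ k := by
    rintro rfl
    exact hjk (h.irrefl j)
  have nkl : k ≠ l := by
    rintro rfl
    exact hkl (h.irrefl k)
  have nil : i ≠ l := by
    rintro rfl
    rw [h.symm] at hik
    exact hkl hik
  have ua := unique h hL ha hjk hik nik.symm
  have ud := unique h hL ((h.symm l k).trans hd) (by rw [h.symm]; exact hjk)
    ((h.symm l j).trans hjl) njl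
  have e1 : bt c (e j + e k) (e i) = bt c (e i + e l) (e j) := by
    rw [bt_add_left, bt_add_left, bt_edge h ((h.symm j i).trans ha),
      bt_nonedge h ((h.symm k i).trans hik), bt_edge h ha, bt_nonedge h ((h.symm l j).trans hjl)]
  obtain ⟨x, h1, h2⟩ := hL _ _ _ _ e1
  have h3 := congrFun h1 b
  rw [bt_add_left, bt_add_left, Pi.add_apply, Pi.add_apply, bt_some h hb, bt_some h hb,
    bt_some h ((h.symm k j).trans hb), bt_some h ((h.symm k j).trans hb), e_ne nik, e_ne nij] at h3
  have h4 := congrFun h2 a
  rw [bt_add_left, bt_add_left, Pi.add_apply, Pi.add_apply, bt_some h ha, bt_some h ha,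
    bt_none (i := l) (t := a) (by
      intro q hq
      rcases ua l q hq with ⟨h5, -⟩ | ⟨h5, -⟩
      · exact nil h5.symm
      · exact njl h5.symm), bt_none (i := l) (t := a) (by
      intro q hq
      rcases ua l q hq with ⟨h5, -⟩ | ⟨h5, -⟩
      · exact nil h5.symm
      · exact njl h5.symm), e_same] at h4
  have h5 := congrFun h2 d
  rw [bt_add_left, bt_add_left, Pi.add_apply, Pi.add_apply, bt_none (i := i) (t := d) (by
      intro q hq
      rcases ud i q hq with ⟨h5, -⟩ | ⟨h5, -⟩
      · exact nil h5
      · exact nik h5), bt_none (i := i) (t := d) (by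
      intro q hq
      rcases ud i q hq with ⟨h5, -⟩ | ⟨h5, -⟩
      · exact nil h5
      · exact nik h5), bt_some h ((h.symm l k).trans hd), bt_some h ((h.symm l k).trans hd),
      e_ne njk] at h5
  generalize x j = xj at *
  generalize x k = xk at *
  revert xj xk
  decide

open Classical in
/-- a vertex of maximal degree is joined to all vertices of its component -/
theorem dominate {d : V}
    (hd : ∀ i, (Finset.univ.filter fun j => c i j ≠ none).card ≤
      (Finset.univ.filter fun j => c d j ≠ none).card)
    {i p : V} (hi : c d i ≠ none) (hp : c i p ≠ none) (hpd : p ≠ d) : c d p ≠ none := by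
  intro hn
  have hsub : insert d (insert p ((Finset.univ.filter fun j => c d j ≠ none).erase i)) ⊆
      Finset.univ.filter fun j => c i j ≠ none := by
    intro j hj
    rw [Finset.mem_filter]
    refine ⟨Finset.mem_univ j, ?_⟩
    rw [Finset.mem_insert, Finset.mem_insert, Finset.mem_erase, Finset.mem_filter] at hj
    rcases hj with rfl | rfl | ⟨h1, -, h2⟩
    · rw [h.symm]; exact hi
    · exact hp
    · intro hij
      exact no_path h hL (i := p) (j := i) (k := d) (l := j) (by rw [h.symm]; exact hp)
        (by rw [h.symm]; exact hi) h2 ((h.symm p d).trans hn) hij hpd (Ne.symm h1)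
  have h1 := Finset.card_le_card hsub
  have hpm : p ∉ (Finset.univ.filter fun j => c d j ≠ none).erase i := by
    rw [Finset.mem_erase, Finset.mem_filter]
    rintro ⟨-, -, h2⟩
    exact h2 hn
  have hdm : d ∉ insert p ((Finset.univ.filter fun j => c d j ≠ none).erase i) := by
    rw [Finset.mem_insert, Finset.mem_erase, Finset.mem_filter]
    rintro (h2 | ⟨-, -, h2⟩)
    · exact hpd h2.symm
    · exact h2 (h.irrefl d)
  rw [Finset.card_insert_of_notMem hdm, Finset.card_insert_of_notMem hpm] at h1
  have him : i ∈ Finset.univ.filter fun j => c d j ≠ none := by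
    rw [Finset.mem_filter]
    exact ⟨Finset.mem_univ i, hi⟩
  rw [Finset.card_erase_of_mem him] at h1
  have h2 : 0 < (Finset.univ.filter fun j => c d j ≠ none).card := Finset.card_pos.2 ⟨i, him⟩
  have h3 := hd i
  omega

end

end Pool.Agent.U863.CG
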