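import Pool.Agent.U863.CG.Nec
import Pool.Agent.TH188.ET.FieldSmall

/-! Fields: bases of `F*/F*²` with independent symbols. -/

set_option autoImplicit false

namespace Pool.Agent.U863.CG

open Pool.Agent.H315R3.ETC Pool.Agent.TH673.VG Pool.Agent.TH188.ET Pool.Agent.TH188.ETF

/-- the classes of `a_1, ..., a_n` form a basis of `F*/F*²` -/
structure SquareClassBasis {F : Type*} [Field F] {n : ℕ} (a : Fin n → Fˣ) : Prop where
  span : ∀ x : Fˣ, ∃ (s : Finset (Fin n)) (y : Fˣ), x = y ^ 2 * ∏ i ∈ s, a i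
  indep : ∀ s : Finset (Fin n), (∃ y : Fˣ, ∏ i ∈ s, a i = y ^ 2) → s = ∅

/-- the different nonzero ones among the symbols `{a_i, a_j}` are linearly independent in
`K_2(F)/2` -/
def IndependentSymbols {F : Type*} [Field F] {n : ℕ} (a : Fin n → Fˣ) : Prop :=
  ∀ T : Finset (K2 F), (∀ t ∈ T, t ≠ 0 ∧ ∃ i j, sy (a i) (a j) = t) → ∑ t ∈ T, t = 0 → T = ∅

/-- `{a_i, a_j} = {a_i, a_k} ≠ 0` only for `j = k` -/
def DistinctSymbols {F : Type*} [Field F] {n : ℕ} (a : Fin n → Fˣ) : Prop :=
  ∀ i j k, sy (a i) (a j) ≠ 0 → sy (a i) (a j) = sy (a i) (a k) → j = k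

section
variable {F : Type*} [Field F]

lemma sy_eq_of_norm {a b c : Fˣ} (h : NormFrom a (b * c)) : sy a b = sy a c := by
  have h1 := sy_of_norm a (b * c) h
  rw [sy_mul_right] at h1
  exact add_right_cancel (h1.trans (K2_add_self (sy a c)).symm)

lemma sy_eq_of_norm' {a b c : Fˣ} (h : NormFrom (a * b) c) : sy a c = sy b c := by
  have h1 := sy_of_norm (a * b) c h
  rw [sy_mul_left] at h1
  exact add_right_cancel (h1.trans (K2_add_self (sy b c)).symm)

/-- equality of symbols in `K_2(F)/2` is isomorphism of quaternion algebras -/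
lemma sy_eq_iff (h2 : (2 : F) ≠ 0) (a b c d : Fˣ) : sy a b = sy c d ↔ QIso a b c d := by
  constructor
  · intro h
    obtain ⟨f, hf⟩ := exists_res h2
    rw [← bq_eq_iff h2, ← hf, ← hf, h]
  · intro h
    obtain ⟨x, h1, h3⟩ := qiso_slot h2 h
    have e1 : sy a b = sy a x := sy_eq_of_norm ((qiso_iff h2 a b x).1 h1)
    have e2 : sy c d = sy c x := sy_eq_of_norm ((qiso_iff h2 c d x).1 h3)
    have h4 : QIso x a x c :=
      ((qiso_symm h2 x a).trans ((h1.symm.trans h).trans h3)).trans (qiso_symm h2 c x)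
    have h5 : NormFrom (a * c) x := NormFrom.comm h2 ((qiso_iff h2 x a c).1 h4)
    rw [e1, e2, sy_eq_of_norm' h5]

lemma sy_comm (h2 : (2 : F) ≠ 0) (a b : Fˣ) : sy a b = sy b a :=
  (sy_eq_iff h2 a b b a).2 (qiso_symm h2 a b)

lemma neg_one_sq (hi : ∃ x : F, x ^ 2 = -1) : ∃ y : Fˣ, (-1 : Fˣ) = y ^ 2 := by
  obtain ⟨x, hx⟩ := hi
  have hx0 : x ≠ 0 := by
    rintro rfl
    rw [zero_pow (by norm_num)] at hx
    exact one_ne_zero (neg_eq_zero.1 hx.symm)
  refine ⟨Units.mk0 x hx0, ?_⟩
  ext
  simp [hx]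

lemma sy_self (hi : ∃ x : F, x ^ 2 = -1) (a : Fˣ) : sy a a = 0 := by
  obtain ⟨y, hy⟩ := neg_one_sq hi
  have h1 := sy_neg_self a
  have h2 : -a = a * y ^ 2 := by rw [← hy, mul_neg, mul_one]
  rwa [h2, sy_sq_right] at h1

lemma sy_zero_iff (h2 : (2 : F) ≠ 0) (a b : Fˣ) : sy a b = 0 ↔ NormFrom a b := by
  rw [← sy_one_right (1 : Fˣ), sy_eq_iff h2, qiso_one h2]

end

section nec

/-- elementary type implies the existence of the basis -/
theorem exists_symbolBasis {F : Type*} [Field F] (h2 : (2 : F) ≠ 0) (hi : ∃ x : F, x ^ 2 = -1)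
    (hE : ∃ S : QData, Elem S ∧ IsStructureOf F S) :
    ∃ (n : ℕ) (a : Fin n → Fˣ), SquareClassBasis a ∧ IndependentSymbols a ∧ DistinctSymbols a := by
  classical
  obtain ⟨S, hS, φ, hs, hk, hn, h0, hq⟩ := hE
  have hQ : IsQuat S := isQuat h2 φ hs hk hn h0 hq
  have hneg : S.neg = 1 := by
    rw [← hn, hk]
    exact neg_one_sq hi
  obtain ⟨V, K, _, c, hc, ψ, -, hψ⟩ := (elem_iff_colour hQ hneg).1 hS
  let Φ : Fˣ →* Multiplicative (V → ZMod 2) := ψ.toMonoidHom.comp φ
  have hΦs : Function.Surjective Φ := ψ.surjective.comp hs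
  have hΦk : ∀ x : Fˣ, Φ x = 1 ↔ ∃ y : Fˣ, x = y ^ 2 := by
    intro x
    rw [← hk]
    exact MulEquiv.map_eq_one_iff ψ
  let v : Fˣ → V → ZMod 2 := fun x => Multiplicative.toAdd (Φ x)
  have hv : ∀ x y z w : Fˣ, sy x y = sy z w ↔ bt c (v x) (v y) = bt c (v z) (v w) := by
    intro x y z w
    rw [sy_eq_iff h2]
    exact (hq x y z w).symm.trans (hψ _ _ _ _)
  have hvm : ∀ x y : Fˣ, v (x * y) = v x + v y := by
    intro x y
    show Multiplicative.toAdd (Φ (x * y)) = _
    rw [map_mul]
    rfl
  have hv1 : v 1 = 0 := by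
    show Multiplicative.toAdd (Φ 1) = _
    rw [map_one]
    rfl
  have hvp : ∀ {n : ℕ} (a : Fin n → Fˣ) (s : Finset (Fin n)),
      v (∏ i ∈ s, a i) = ∑ i ∈ s, v (a i) := by
    intro n a s
    induction s using Finset.induction_on with
    | empty => simp [hv1]
    | insert i s hi ih => rw [Finset.prod_insert hi, Finset.sum_insert hi, hvm, ih]
  have hex : ∀ w : V, ∃ x : Fˣ, v x = e w := by
    intro w
    obtain ⟨x, hx⟩ := hΦs (Multiplicative.ofAdd (e w))
    exact ⟨x, congrArg Multiplicative.toAdd hx⟩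
  choose a' ha' using hex
  let r : Fin (Fintype.card V) ≃ V := (Fintype.equivFin V).symm
  have hsum : ∀ (s : Finset (Fin (Fintype.card V))) (w : V),
      v (∏ i ∈ s, a' (r i)) w = if r.symm w ∈ s then 1 else 0 := by
    intro s w
    rw [hvp, Finset.sum_apply]
    have h3 : ∀ i ∈ s, v (a' (r i)) w = if i = r.symm w then 1 else 0 := by
      intro i _
      rw [ha']
      split_ifs with h4
      · rw [h4, r.apply_symm_apply, e_same]
      · exact e_ne fun h5 => h4 (by rw [← h5, r.symm_apply_apply])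
    rw [Finset.sum_congr rfl h3, Finset.sum_ite_eq']
  have hz : ∀ x y : Fˣ, sy x y = 0 ↔ bt c (v x) (v y) = 0 := by
    intro x y
    rw [← sy_one_right (1 : Fˣ), hv, hv1, bt_zero_left]
  -- the colour of a nonzero symbol
  have hcol : ∀ i j, sy (a' i) (a' j) ≠ 0 → ∃ k, c i j = some k := by
    intro i j h3
    by_contra hcon
    apply h3
    rw [hz, ha', ha']
    refine bt_nonedge hc ?_
    by_contra h4
    exact hcon (Option.ne_none_iff_exists'.1 h4)
  refine ⟨Fintype.card V, fun i => a' (r i), ⟨?_, ?_⟩, ?_, ?_⟩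
  · intro x
    let s : Finset (Fin (Fintype.card V)) := Finset.univ.filter fun i => v x (r i) = 1
    have h3 : v (x * (∏ i ∈ s, a' (r i))) = 0 := by
      funext w
      rw [hvm, Pi.add_apply, hsum, Pi.zero_apply]
      have h4 : r.symm w ∈ s ↔ v x w = 1 := by
        rw [Finset.mem_filter, r.apply_symm_apply]
        exact ⟨fun h => h.2, fun h => ⟨Finset.mem_univ _, h⟩⟩
      rcases zmod_cases (v x w) with h5 | h5
      · rw [h5, if_neg (by rw [h4, h5]; decide), add_zero]
      · rw [if_pos (h4.2 h5), h5]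
        decide
    obtain ⟨y, hy⟩ := (hΦk _).1 h3
    refine ⟨s, y * (∏ i ∈ s, a' (r i))⁻¹, ?_⟩
    have h4 : x = y ^ 2 * (∏ i ∈ s, a' (r i))⁻¹ := by rw [← hy, mul_inv_cancel_right]
    rw [h4, mul_pow, pow_two (∏ i ∈ s, a' (r i))⁻¹]
    group
  · rintro s ⟨y, hy⟩
    have h3 : v (∏ i ∈ s, a' (r i)) = 0 := (hΦk _).2 ⟨y, hy⟩
    rw [Finset.eq_empty_iff_forall_notMem]
    intro i his
    have h4 := congrFun h3 (r i)
    rw [hsum, r.symm_apply_apply, if_pos his] at h4
    exact one_ne_zero h4
  · intro T hT hsumT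
    by_contra hne
    obtain ⟨t₀, ht₀⟩ := Finset.nonempty_iff_ne_empty.2 hne
    obtain ⟨h3, i, j, hij⟩ := hT t₀ ht₀
    have h3' : sy (a' (r i)) (a' (r j)) ≠ 0 := by rw [hij]; exact h3
    obtain ⟨k, hck⟩ := hcol _ _ h3'
    obtain ⟨f, hf⟩ := exists_hom (fun x y : Fˣ => bt c (v x) (v y) k)
      (fun x y z => by rw [hvm, bt_add_left]; rfl)
      (fun x y z => by rw [hvm, bt_add_right]; rfl)
      (fun x y hxy => by
        have : bt c (v x) (v y) = 0 := (hz x y).1 (sy_of_norm x y hxy)
        show bt c (v x) (v y) k = 0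
        rw [this]; rfl)
    have h4 : ∀ t ∈ T, f t = if t = t₀ then 1 else 0 := by
      intro t ht
      obtain ⟨h5, l, m, hlm⟩ := hT t ht
      have h5' : sy (a' (r l)) (a' (r m)) ≠ 0 := by rw [hlm]; exact h5
      obtain ⟨k', hck'⟩ := hcol _ _ h5'
      have h6 : f t = (Pi.single k' 1 : K → ZMod 2) k := by
        rw [← hlm, hf]
        show bt c (v (a' (r l))) (v (a' (r m))) k = _
        rw [ha', ha', bt_edge hc hck']
      have h7 : t = t₀ ↔ k' = k := by
        rw [← hlm, ← hij, hv, ha', ha', ha', ha', bt_edge hc hck', bt_edge hc hck]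
        constructor
        · intro h8
          by_contra h9
          have h10 := congrFun h8 k'
          rw [Pi.single_eq_same, Pi.single_eq_of_ne h9] at h10
          exact one_ne_zero h10
        · rintro rfl
          rfl
      rw [h6]
      by_cases h8 : k' = k
      · rw [if_pos (h7.2 h8), h8, Pi.single_eq_same]
      · rw [if_neg fun h9 => h8 (h7.1 h9), Pi.single_eq_of_ne (Ne.symm h8)]
    have h5 := congrArg f hsumT
    rw [map_sum, map_zero, Finset.sum_congr rfl h4, Finset.sum_ite_eq', if_pos ht₀] at h5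
    exact one_ne_zero h5
  · intro i j k h3 h4
    obtain ⟨t, ht⟩ := hcol _ _ h3
    obtain ⟨t', ht'⟩ := hcol (r i) (r k) (by rw [← h4]; exact h3)
    rw [hv, ha', ha', ha', bt_edge hc ht, bt_edge hc ht'] at h4
    have h5 : t = t' := by
      by_contra h9
      have h10 := congrFun h4 t
      rw [Pi.single_eq_same, Pi.single_eq_of_ne h9] at h10
      exact one_ne_zero h10
    subst h5
    exact r.injective (hc.proper _ _ _ t ht ht')

end nec

section suff

/-- powers with exponent in `ZMod 2` -/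
def zu {G : Type*} [CommGroup G] (a : G) (x : ZMod 2) : G := if x = 0 then 1 else a

lemma zu_zero {G : Type*} [CommGroup G] (a : G) : zu a 0 = 1 := if_pos rfl

lemma zu_one {G : Type*} [CommGroup G] (a : G) : zu a 1 = a := if_neg (by decide)

lemma zu_add {G : Type*} [CommGroup G] {a : G} (ha : a * a = 1) (x y : ZMod 2) :
    zu a (x + y) = zu a x * zu a y := by
  rcases zmod_cases x with rfl | rfl <;> rcases zmod_cases y with rfl | rfl
  · rw [add_zero, zu_zero, one_mul]
  · rw [zero_add, zu_zero, one_mul]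
  · rw [add_zero, zu_zero, mul_one]
  · rw [zu_one, ha, show (1 : ZMod 2) + 1 = 0 by decide, zu_zero]

variable {F : Type*} [Field F] {n : ℕ} {a : Fin n → Fˣ}

/-- the element with given coordinates -/
def pr (a : Fin n → Fˣ) (x : Fin n → ZMod 2) : Fˣ := ∏ i, zu (a i) (x i)

lemma pr_eq (a : Fin n → Fˣ) (x : Fin n → ZMod 2) :
    pr a x = ∏ i ∈ Finset.univ.filter (fun i => x i = 1), a i := by
  rw [Finset.prod_filter]
  refine Finset.prod_congr rfl fun i _ => ?_
  rcases zmod_cases (x i) with h | h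
  · rw [h, zu_zero, if_neg (by decide)]
  · rw [h, zu_one, if_pos rfl]

lemma map_zu {G H : Type*} [CommGroup G] [CommGroup H] (φ : G →* H) (g : G) (x : ZMod 2) :
    φ (if x = 0 then 1 else g) = if x = 0 then 1 else φ g := by
  split_ifs
  · exact map_one φ
  · rfl

open Classical in
/-- a basis with independent symbols implies elementary type -/
theorem elem_of_symbolBasis (h2 : (2 : F) ≠ 0) (hfin : FinSq F) (hi : ∃ x : F, x ^ 2 = -1)
    (hb : SquareClassBasis a) (hI : IndependentSymbols a) (hD : DistinctSymbols a) :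
    ∃ S : QData, Elem S ∧ IsStructureOf F S := by
  obtain ⟨S, hS, -, hQ⟩ := exists_structure h2 hfin
  obtain ⟨φ, hs, hk, hn, h0, hq⟩ := id hS
  have hneg : S.neg = 1 := by
    rw [← hn, hk]
    exact neg_one_sq hi
  -- the colours
  have hX : Finite {t : K2 F // t ≠ 0 ∧ ∃ i j, sy (a i) (a j) = t} := by
    refine Set.Finite.subset (Set.finite_range fun p : Fin n × Fin n => sy (a p.1) (a p.2)) ?_
    rintro t ⟨-, i, j, h⟩
    exact ⟨(i, j), h⟩
  obtain ⟨m, ⟨enc⟩⟩ := Finite.exists_equiv_fin {t : K2 F // t ≠ 0 ∧ ∃ i j, sy (a i) (a j) = t}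
  let val : Fin m → K2 F := fun k => (enc.symm k : K2 F)
  have hval : Function.Injective val := fun k l h => enc.symm.injective (Subtype.ext h)
  have hval0 : ∀ k, val k ≠ 0 := fun k => (enc.symm k).2.1
  let c : Fin n → Fin n → Option (Fin m) := fun i j =>
    if h : sy (a i) (a j) = 0 then none else some (enc ⟨_, h, i, j, rfl⟩)
  have hc : ∀ i j k, c i j = some k ↔ sy (a i) (a j) = val k := by
    intro i j k
    show (if h : sy (a i) (a j) = 0 then none else some (enc ⟨_, h, i, j, rfl⟩)) = some k ↔ _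
    split_ifs with h
    · rw [h]
      exact ⟨fun h3 => absurd h3 (by simp), fun h3 => absurd h3.symm (hval0 k)⟩
    · rw [Option.some.injEq, ← Equiv.eq_symm_apply]
      constructor
      · intro h3
        exact congrArg Subtype.val h3
      · intro h3
        exact Subtype.ext h3
  have hc0 : ∀ i j, c i j = none ↔ sy (a i) (a j) = 0 := by
    intro i j
    show (if h : sy (a i) (a j) = 0 then none else some (enc ⟨_, h, i, j, rfl⟩)) = none ↔ _
    split_ifs with h
    · simp [h]
    · simp [h]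
  have hcs : ∀ i j, c i j = c j i := by
    intro i j
    rcases h3 : c j i with - | k
    · rw [hc0, sy_comm h2]
      exact (hc0 j i).1 h3
    · rw [hc, sy_comm h2]
      exact (hc j i k).1 h3
  have hP : ProperColouring c := by
    refine ⟨hcs, fun i => (hc0 i i).2 (sy_self hi _), ?_⟩
    intro i j k t h3 h4
    rw [hc] at h3 h4
    exact hD i j k (by rw [h3]; exact hval0 t) (h3.trans h4.symm)
  -- the values
  let _ : Module (ZMod 2) (K2 F) := AddCommGroup.zmodModule (n := 2) (fun x => by
    rw [two_nsmul]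
    exact K2_add_self x)
  have hzl : ∀ (x : ZMod 2) (g h : Fˣ), sy (zu g x) h = x • sy g h := by
    intro x g h
    rcases zmod_cases x with rfl | rfl
    · rw [zu_zero, sy_one_left, zero_smul]
    · rw [zu_one, one_smul]
  have hzr : ∀ (x : ZMod 2) (g h : Fˣ), sy h (zu g x) = x • sy h g := by
    intro x g h
    rcases zmod_cases x with rfl | rfl
    · rw [zu_zero, sy_one_right, zero_smul]
    · rw [zu_one, one_smul]
  have hcv : ∀ i j, sy (a i) (a j) = ∑ k, (if c i j = some k then (1 : ZMod 2) else 0) • val k := by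
    intro i j
    by_cases h3 : sy (a i) (a j) = 0
    · rw [h3]
      symm
      refine Finset.sum_eq_zero fun k _ => ?_
      rw [if_neg, zero_smul]
      rw [(hc0 i j).2 h3]
      simp
    · obtain ⟨k, hk3⟩ := Option.ne_none_iff_exists'.1 (fun h4 => h3 ((hc0 i j).1 h4))
      rw [Finset.sum_eq_single k]
      · rw [if_pos hk3, one_smul]
        exact (hc i j k).1 hk3
      · intro l _ hl
        rw [if_neg, zero_smul]
        rw [hk3]
        intro h5
        exact hl (Option.some.inj h5).symm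
      · intro h5
        exact absurd (Finset.mem_univ k) h5
  have key : ∀ x y : Fin n → ZMod 2, sy (pr a x) (pr a y) = ∑ k, bt c x y k • val k := by
    intro x y
    have e1 : sy (pr a x) (pr a y) = ∑ i, ∑ j, (x i * y j) • sy (a i) (a j) := by
      unfold pr
      rw [sy_prod_left]
      refine Finset.sum_congr rfl fun i _ => ?_
      rw [sy_prod_right]
      refine Finset.sum_congr rfl fun j _ => ?_
      rw [hzl, hzr, smul_smul]
    rw [e1]
    have e2 : ∀ k, bt c x y k • val k =
        ∑ i, ∑ j, ((x i * y j) * (if c i j = some k then (1 : ZMod 2) else 0)) • val k := by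
      intro k
      unfold bt
      rw [Finset.sum_smul]
      refine Finset.sum_congr rfl fun i _ => ?_
      rw [Finset.sum_smul]
      refine Finset.sum_congr rfl fun j _ => ?_
      split_ifs
      · rw [mul_one]
      · rw [mul_zero]
    rw [Finset.sum_congr rfl fun k _ => e2 k]
    refine Eq.trans ?_ Finset.sum_comm
    refine Finset.sum_congr rfl fun i _ => ?_
    refine Eq.trans ?_ Finset.sum_comm
    refine Finset.sum_congr rfl fun j _ => ?_
    conv_lhs => rw [hcv i j, Finset.smul_sum]
    refine Finset.sum_congr rfl fun k _ => ?_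
    rw [smul_smul]
  have hlin : ∀ d : Fin m → ZMod 2, ∑ k, d k • val k = (0 : K2 F) → d = 0 := by
    intro d hd
    have h3 : ∑ t ∈ (Finset.univ.filter fun k => d k = 1).image val, t = (0 : K2 F) := by
      rw [Finset.sum_image (fun k _ l _ h => hval h), Finset.sum_filter]
      refine Eq.trans (Finset.sum_congr rfl fun k _ => ?_) hd
      rcases zmod_cases (d k) with h | h
      · rw [h, zero_smul, if_neg (by decide)]
      · rw [h, one_smul, if_pos rfl]
    have h4 := hI _ (by
      intro t ht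
      obtain ⟨k, -, rfl⟩ := Finset.mem_image.1 ht
      exact (enc.symm k).2) h3
    rw [Finset.image_eq_empty, Finset.filter_eq_empty_iff] at h4
    funext k
    rcases zmod_cases (d k) with h | h
    · exact h
    · exact absurd h (h4 (Finset.mem_univ k))
  have hbt : ∀ x y z w : Fin n → ZMod 2,
      sy (pr a x) (pr a y) = sy (pr a z) (pr a w) ↔ bt c x y = bt c z w := by
    intro x y z w
    rw [key, key]
    constructor
    · intro h3
      have h4 := hlin (fun k => bt c x y k - bt c z w k) (by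
        have h5 : ∀ k, (bt c x y k - bt c z w k) • val k =
            bt c x y k • val k - bt c z w k • val k := fun k => sub_smul _ _ _
        rw [Finset.sum_congr rfl fun k _ => h5 k, Finset.sum_sub_distrib, h3, sub_self])
      funext k
      exact sub_eq_zero.1 (congrFun h4 k)
    · intro h3
      rw [h3]
  -- the isomorphism
  have hφp : ∀ x : Fin n → ZMod 2, φ (pr a x) = ∏ i, zu (φ (a i)) (x i) := by
    intro x
    unfold pr
    rw [map_prod]
    exact Finset.prod_congr rfl fun i _ => map_zu φ _ _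
  let θ : Multiplicative (Fin n → ZMod 2) →* S.G :=
    { toFun := fun x => φ (pr a (Multiplicative.toAdd x))
      map_one' := by
        rw [hφp]
        exact Finset.prod_eq_one fun i _ => zu_zero _
      map_mul' := by
        intro x y
        rw [hφp, hφp, hφp, ← Finset.prod_mul_distrib]
        exact Finset.prod_congr rfl fun i _ => zu_add (hQ.exp2 _) _ _ }
  have hθi : Function.Injective θ := by
    rw [injective_iff_map_eq_one]
    intro x hx
    have h3 : ∃ y : Fˣ, pr a (Multiplicative.toAdd x) = y ^ 2 := (hk _).1 hx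
    rw [pr_eq] at h3
    have h4 := hb.indep _ h3
    rw [Finset.filter_eq_empty_iff] at h4
    funext i
    rcases zmod_cases (Multiplicative.toAdd x i) with h | h
    · exact h
    · exact absurd h (h4 (Finset.mem_univ i))
  have hθs : Function.Surjective θ := by
    intro g
    obtain ⟨z, rfl⟩ := hs g
    obtain ⟨s, y, rfl⟩ := hb.span z
    refine ⟨Multiplicative.ofAdd fun i => if i ∈ s then 1 else 0, ?_⟩
    show φ (pr a fun i => if i ∈ s then 1 else 0) = _
    have h3 : pr a (fun i => if i ∈ s then (1 : ZMod 2) else 0) = ∏ i ∈ s, a i := by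
      rw [pr_eq]
      refine Finset.prod_congr ?_ fun _ _ => rfl
      ext i
      rw [Finset.mem_filter]
      constructor
      · rintro ⟨-, h3⟩
        by_contra h4
        rw [if_neg h4] at h3
        exact zero_ne_one h3
      · intro h4
        exact ⟨Finset.mem_univ i, if_pos h4⟩
    rw [h3, map_mul, (hk (y ^ 2)).2 ⟨y, rfl⟩, one_mul]
  have hIso : Iso (colourStructure c) S := by
    refine ⟨MulEquiv.ofBijective θ ⟨hθi, hθs⟩, ?_, ?_⟩
    · rw [hneg]
      exact map_one θ
    · intro x y z w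
      refine (hbt _ _ _ _).symm.trans ?_
      rw [sy_eq_iff h2]
      exact (hq _ _ _ _).symm
  have h1 : IsQuat (fz (colourStructure c)) :=
    isQuat_of_iso hIso (by rw [fz_eq hQ]; exact hQ)
  rw [fz_colour] at h1
  exact ⟨S, Elem.iso _ _ (elem_colour hP h1) hIso, hS⟩

end suff

end Pool.Agent.U863.CG
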