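import Pool.Agent.U863.CG.Field
import Pool.Agent.U863.CG.Rigid
import Pool.Agent.Y920.ETC.FieldH
import Pool.Agent.Y920.ETC.GalH
import Pool.Agent.Y620.ET.Extv
import Pool.Agent.Y37.ET.Max2

/-! Connected graphs of symbols give valuations. -/

set_option autoImplicit false

namespace Pool.Agent.U863.CG

open Pool.Agent.H315R3.ETC Pool.Agent.TH673.VG Pool.Agent.TH188.ET Pool.Agent.TH188.ETF

section
variable {F : Type*} [Field F] {n : ℕ} {a : Fin n → Fˣ}

open Classical in
/-- the coloured graph of a basis with independent symbols -/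
theorem exists_colour (h2 : (2 : F) ≠ 0) (hi : ∃ x : F, x ^ 2 = -1)
    (hb : SquareClassBasis a) (hI : IndependentSymbols a) (hD : DistinctSymbols a)
    {S : QData} (hQ : IsQuat S) {φ : Fˣ →* S.G} (hs : Function.Surjective φ)
    (hk : ∀ x : Fˣ, φ x = 1 ↔ ∃ y : Fˣ, x = y ^ 2) (hn : φ (-1) = S.neg)
    (hq : ∀ x y z w : Fˣ, S.q (φ x) (φ y) = S.q (φ z) (φ w) ↔ QIso x y z w) :
    ∃ (m : ℕ) (c : Fin n → Fin n → Option (Fin m)), ProperColouring c ∧
      IsQuat (colourStructure c) ∧ (∀ i j, c i j = none ↔ sy (a i) (a j) = 0) ∧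
      ∃ v : Fˣ → Fin n → ZMod 2, (∀ x y, v (x * y) = v x + v y) ∧
        (∀ x, v x = 0 ↔ ∃ y : Fˣ, x = y ^ 2) ∧ (∀ f, ∃ x, v x = f) ∧
        ∀ x y, sy x y = 0 ↔ bt c (v x) (v y) = 0 := by
  have hneg : S.neg = 1 := by
    rw [← hn, hk]
    exact neg_one_sq hi
  -- the colours
  have hX : Finite {t : K2 F // t ≠ 0 ∧ ∃ i j, sy (a i) (a j) = t} := by
    refine Set.Finite.subset (Set.finite_range fun p : Fin n × Fin n => sy (a p.1) (a p.2)) ?_
    rintro t ⟨-, i, j, h⟩
    exact ⟨(i, j), h⟩
  obtain ⟨m, ⟨enc⟩⟩ := Finite.exists_equiv_fin {t : K2 F // t ≠ 0 ∧ ∃ i j, sy (a i) (a j) = t}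
  let val : Fin m → K2 F := fun k => (enc.symm k : K2 F)
  have hval : Function.Injective val := fun k l h => enc.symm.injective (Subtype.ext h)
  have hval0 : ∀ k, val k ≠ 0 := fun k => (enc.symm k).2.1
  let c : Fin n → Fin n → Option (Fin m) := fun i j =>
    if h : sy (a i) (a j) = 0 then none else some (enc ⟨_, h, i, j, rfl⟩)
  have hc : ∀ i j k, c i j = some k ↔ sy (a i) (a j) = val k := by
    intro i j k
    show (if h : sy (a i) (a j) = 0 then none else some (enc ⟨_, h, i, j, rfl⟩)) = some k ↔ _
    split_ifs with h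
    · rw [h]
      exact ⟨fun h3 => absurd h3 (by simp), fun h3 => absurd h3.symm (hval0 k)⟩
    · rw [Option.some.injEq, ← Equiv.eq_symm_apply]
      constructor
      · intro h3
        exact congrArg Subtype.val h3
      · intro h3
        exact Subtype.ext h3
  have hc0 : ∀ i j, c i j = none ↔ sy (a i) (a j) = 0 := by
    intro i j
    show (if h : sy (a i) (a j) = 0 then none else some (enc ⟨_, h, i, j, rfl⟩)) = none ↔ _
    split_ifs with h
    · simp [h]
    · simp [h]
  have hcs : ∀ i j, c i j = c j i := by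
    intro i j
    rcases h3 : c j i with - | k
    · rw [hc0, sy_comm h2]
      exact (hc0 j i).1 h3
    · rw [hc, sy_comm h2]
      exact (hc j i k).1 h3
  have hP : ProperColouring c := by
    refine ⟨hcs, fun i => (hc0 i i).2 (sy_self hi _), ?_⟩
    intro i j k t h3 h4
    rw [hc] at h3 h4
    exact hD i j k (by rw [h3]; exact hval0 t) (h3.trans h4.symm)
  -- the values
  let _ : Module (ZMod 2) (K2 F) := AddCommGroup.zmodModule (n := 2) (fun x => by
    rw [two_nsmul]
    exact K2_add_self x)
  have hzl : ∀ (x : ZMod 2) (g h : Fˣ), sy (zu g x) h = x • sy g h := by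
    intro x g h
    rcases zmod_cases x with rfl | rfl
    · rw [zu_zero, sy_one_left, zero_smul]
    · rw [zu_one, one_smul]
  have hzr : ∀ (x : ZMod 2) (g h : Fˣ), sy h (zu g x) = x • sy h g := by
    intro x g h
    rcases zmod_cases x with rfl | rfl
    · rw [zu_zero, sy_one_right, zero_smul]
    · rw [zu_one, one_smul]
  have hcv : ∀ i j, sy (a i) (a j) = ∑ k, (if c i j = some k then (1 : ZMod 2) else 0) • val k := by
    intro i j
    by_cases h3 : sy (a i) (a j) = 0
    · rw [h3]
      symm
      refine Finset.sum_eq_zero fun k _ => ?_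
      rw [if_neg, zero_smul]
      rw [(hc0 i j).2 h3]
      simp
    · obtain ⟨k, hk3⟩ := Option.ne_none_iff_exists'.1 (fun h4 => h3 ((hc0 i j).1 h4))
      rw [Finset.sum_eq_single k]
      · rw [if_pos hk3, one_smul]
        exact (hc i j k).1 hk3
      · intro l _ hl
        rw [if_neg, zero_smul]
        rw [hk3]
        intro h5
        exact hl (Option.some.inj h5).symm
      · intro h5
        exact absurd (Finset.mem_univ k) h5
  have key : ∀ x y : Fin n → ZMod 2, sy (pr a x) (pr a y) = ∑ k, bt c x y k • val k := by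
    intro x y
    have e1 : sy (pr a x) (pr a y) = ∑ i, ∑ j, (x i * y j) • sy (a i) (a j) := by
      unfold pr
      rw [sy_prod_left]
      refine Finset.sum_congr rfl fun i _ => ?_
      rw [sy_prod_right]
      refine Finset.sum_congr rfl fun j _ => ?_
      rw [hzl, hzr, smul_smul]
    rw [e1]
    have e2 : ∀ k, bt c x y k • val k =
        ∑ i, ∑ j, ((x i * y j) * (if c i j = some k then (1 : ZMod 2) else 0)) • val k := by
      intro k
      unfold bt
      rw [Finset.sum_smul]
      refine Finset.sum_congr rfl fun i _ => ?_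
      rw [Finset.sum_smul]
      refine Finset.sum_congr rfl fun j _ => ?_
      split_ifs
      · rw [mul_one]
      · rw [mul_zero]
    rw [Finset.sum_congr rfl fun k _ => e2 k]
    refine Eq.trans ?_ Finset.sum_comm
    refine Finset.sum_congr rfl fun i _ => ?_
    refine Eq.trans ?_ Finset.sum_comm
    refine Finset.sum_congr rfl fun j _ => ?_
    conv_lhs => rw [hcv i j, Finset.smul_sum]
    refine Finset.sum_congr rfl fun k _ => ?_
    rw [smul_smul]
  have hlin : ∀ d : Fin m → ZMod 2, ∑ k, d k • val k = (0 : K2 F) → d = 0 := by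
    intro d hd
    have h3 : ∑ t ∈ (Finset.univ.filter fun k => d k = 1).image val, t = (0 : K2 F) := by
      rw [Finset.sum_image (fun k _ l _ h => hval h), Finset.sum_filter]
      refine Eq.trans (Finset.sum_congr rfl fun k _ => ?_) hd
      rcases zmod_cases (d k) with h | h
      · rw [h, zero_smul, if_neg (by decide)]
      · rw [h, one_smul, if_pos rfl]
    have h4 := hI _ (by
      intro t ht
      obtain ⟨k, -, rfl⟩ := Finset.mem_image.1 ht
      exact (enc.symm k).2) h3
    rw [Finset.image_eq_empty, Finset.filter_eq_empty_iff] at h4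
    funext k
    rcases zmod_cases (d k) with h | h
    · exact h
    · exact absurd h (h4 (Finset.mem_univ k))
  have hbt : ∀ x y z w : Fin n → ZMod 2,
      sy (pr a x) (pr a y) = sy (pr a z) (pr a w) ↔ bt c x y = bt c z w := by
    intro x y z w
    rw [key, key]
    constructor
    · intro h3
      have h4 := hlin (fun k => bt c x y k - bt c z w k) (by
        have h5 : ∀ k, (bt c x y k - bt c z w k) • val k =
            bt c x y k • val k - bt c z w k • val k := fun k => sub_smul _ _ _
        rw [Finset.sum_congr rfl fun k _ => h5 k, Finset.sum_sub_distrib, h3, sub_self])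
      funext k
      exact sub_eq_zero.1 (congrFun h4 k)
    · intro h3
      rw [h3]
  -- the isomorphism
  have hφp : ∀ x : Fin n → ZMod 2, φ (pr a x) = ∏ i, zu (φ (a i)) (x i) := by
    intro x
    unfold pr
    rw [map_prod]
    exact Finset.prod_congr rfl fun i _ => map_zu φ _ _
  let θ : Multiplicative (Fin n → ZMod 2) →* S.G :=
    { toFun := fun x => φ (pr a (Multiplicative.toAdd x))
      map_one' := by
        rw [hφp]
        exact Finset.prod_eq_one fun i _ => zu_zero _
      map_mul' := by
        intro x y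
        rw [hφp, hφp, hφp, ← Finset.prod_mul_distrib]
        exact Finset.prod_congr rfl fun i _ => zu_add (hQ.exp2 _) _ _ }
  have hθi : Function.Injective θ := by
    rw [injective_iff_map_eq_one]
    intro x hx
    have h3 : ∃ y : Fˣ, pr a (Multiplicative.toAdd x) = y ^ 2 := (hk _).1 hx
    rw [pr_eq] at h3
    have h4 := hb.indep _ h3
    rw [Finset.filter_eq_empty_iff] at h4
    funext i
    rcases zmod_cases (Multiplicative.toAdd x i) with h | h
    · exact h
    · exact absurd h (h4 (Finset.mem_univ i))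
  have hθs : Function.Surjective θ := by
    intro g
    obtain ⟨z, rfl⟩ := hs g
    obtain ⟨s, y, rfl⟩ := hb.span z
    refine ⟨Multiplicative.ofAdd fun i => if i ∈ s then 1 else 0, ?_⟩
    show φ (pr a fun i => if i ∈ s then 1 else 0) = _
    have h3 : pr a (fun i => if i ∈ s then (1 : ZMod 2) else 0) = ∏ i ∈ s, a i := by
      rw [pr_eq]
      refine Finset.prod_congr ?_ fun _ _ => rfl
      ext i
      rw [Finset.mem_filter]
      constructor
      · rintro ⟨-, h3⟩
        by_contra h4
        rw [if_neg h4] at h3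
        exact zero_ne_one h3
      · intro h4
        exact ⟨Finset.mem_univ i, if_pos h4⟩
    rw [h3, map_mul, (hk (y ^ 2)).2 ⟨y, rfl⟩, one_mul]
  have hIso : Iso (colourStructure c) S := by
    refine ⟨MulEquiv.ofBijective θ ⟨hθi, hθs⟩, ?_, ?_⟩
    · rw [hneg]
      exact map_one θ
    · intro x y z w
      refine (hbt _ _ _ _).symm.trans ?_
      rw [sy_eq_iff h2]
      exact (hq _ _ _ _).symm
  have h1 : IsQuat (fz (colourStructure c)) :=
    isQuat_of_iso hIso (by rw [fz_eq hQ]; exact hQ)
  rw [fz_colour] at h1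
  let ψ := MulEquiv.ofBijective θ ⟨hθi, hθs⟩
  have hψ : ∀ g : S.G, θ (ψ.symm g) = g := fun g => ψ.apply_symm_apply g
  refine ⟨m, c, hP, h1, hc0, fun x => Multiplicative.toAdd (ψ.symm (φ x)), ?_, ?_, ?_, ?_⟩
  · intro x y
    show Multiplicative.toAdd (ψ.symm (φ (x * y))) = _
    rw [map_mul, map_mul]
    rfl
  · intro x
    rw [← hk]
    exact MulEquiv.map_eq_one_iff ψ.symm
  · intro f
    obtain ⟨x, hx⟩ := hs (ψ (Multiplicative.ofAdd f))
    refine ⟨x, ?_⟩
    show Multiplicative.toAdd (ψ.symm (φ x)) = f
    rw [hx, ψ.symm_apply_apply]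
    rfl
  · intro x y
    have h3 := hbt (Multiplicative.toAdd (ψ.symm (φ x))) (Multiplicative.toAdd (ψ.symm (φ y))) 0 0
    rw [bt_zero_left] at h3
    rw [← h3, sy_eq_iff h2, ← hq, ← sy_one_right (1 : Fˣ), sy_eq_iff h2, ← hq]
    have e1 : φ (pr a (Multiplicative.toAdd (ψ.symm (φ x)))) = φ x := hψ (φ x)
    have e2 : φ (pr a (Multiplicative.toAdd (ψ.symm (φ y)))) = φ y := hψ (φ y)
    have e3 : φ (pr a 0) = 1 := map_one θ
    rw [e1, e2, e3, map_one]

end

section graph
variable {V K : Type} [Fintype V] {c : V → V → Option K}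

/-- vectors orthogonal to a vector with nonzero coordinate at a cone vertex -/
theorem rigid_apex (h : ProperColouring c) (hL : Linked c) {d : V} (hd : ∀ w, w ≠ d → c d w ≠ none)
    {f g : V → ZMod 2} (hf : f d = 1) (hfg : bt c f g = 0) : g = 0 ∨ g = f := by
  classical
  have key : ∀ j, g j = f j * g d := by
    intro j
    by_cases hj : j = d
    · rw [hj, hf, one_mul]
    · obtain ⟨t, ht⟩ := Option.ne_none_iff_exists'.1 (hd j hj)
      have hun : ∀ k l, c k l = some t → (k = d ∧ l = j) ∨ (k = j ∧ l = d) := by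
        intro k l hkl
        by_cases h1 : k = d
        · subst h1
          exact Or.inl ⟨rfl, h.proper k l j t hkl ht⟩
        by_cases h2 : k = j
        · subst h2
          exact Or.inr ⟨rfl, h.proper k l d t hkl ((h.symm k d).trans ht)⟩
        exfalso
        by_cases h3 : l = d
        · subst h3
          exact h2 (h.proper l k j t ((h.symm l k).trans hkl) ht)
        · have h4 := no_edge h hL ((h.symm j d).trans ht) hkl (Ne.symm h3)
          rw [h.symm] at h4
          exact hd k h1 h4
      have h1 : bt c f g t = f d * g j + f j * g d := by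
        have e1 : ∀ i, (∑ l, if c i l = some t then f i * g l else 0) =
            (if i = d then f d * g j else 0) + (if i = j then f j * g d else 0) := by
          intro i
          by_cases hi : i = d
          · rw [if_pos hi, if_neg (fun e => hj (e.symm.trans hi)), add_zero,
              Finset.sum_eq_single j]
            · rw [hi, if_pos ht]
            · intro l _ hl
              rw [if_neg]
              intro h5
              rcases hun i l h5 with h6 | h6
              · exact hl h6.2
              · exact hj (h6.1.symm.trans hi)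
            · intro h5
              exact absurd (Finset.mem_univ j) h5
          · by_cases hi' : i = j
            · rw [if_neg hi, if_pos hi', zero_add, Finset.sum_eq_single d]
              · rw [hi', if_pos ((h.symm j d).trans ht)]
              · intro l _ hl
                rw [if_neg]
                intro h5
                rcases hun i l h5 with h6 | h6
                · exact hi h6.1
                · exact hl h6.2
              · intro h5
                exact absurd (Finset.mem_univ d) h5
            · rw [if_neg hi, if_neg hi', add_zero]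
              refine Finset.sum_eq_zero fun l _ => ?_
              rw [if_neg]
              intro h5
              rcases hun i l h5 with h6 | h6
              · exact hi h6.1
              · exact hi' h6.1
        unfold bt
        rw [Finset.sum_congr rfl fun i _ => e1 i, Finset.sum_add_distrib,
          Finset.sum_ite_eq', Finset.sum_ite_eq', if_pos (Finset.mem_univ _),
          if_pos (Finset.mem_univ _)]
      rw [hfg, hf, one_mul] at h1
      have h2 : (0 : ZMod 2) = g j + f j * g d := h1
      have h3 := congrArg (fun z => z + f j * g d) h2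
      simp only [zero_add, add_assoc, two_zero, add_zero] at h3
      exact h3.symm
  rcases zmod_cases (g d) with h1 | h1
  · left
    funext j
    rw [key, h1, mul_zero]
    rfl
  · right
    funext j
    rw [key, h1, mul_one]

/-- a vertex joined to all others -/
theorem exists_apex (h : ProperColouring c) (hL : Linked c) [Nonempty V]
    (hcon : ∀ s : Set V, s.Nonempty → sᶜ.Nonempty → ∃ i ∈ s, ∃ j ∉ s, c i j ≠ none) :
    ∃ d : V, ∀ w, w ≠ d → c d w ≠ none := by
  classical
  obtain ⟨d, -, hd⟩ := Finset.exists_max_image (Finset.univ : Finset V)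
    (fun i => (Finset.univ.filter fun j => c i j ≠ none).card) Finset.univ_nonempty
  have hdom : ∀ {i p : V}, c d i ≠ none → c i p ≠ none → p ≠ d → c d p ≠ none := by
    intro i p
    refine dominate h hL fun i => ?_
    convert hd i (Finset.mem_univ i)
  refine ⟨d, fun w hw => ?_⟩
  by_contra hcw
  obtain ⟨i, hi, j, hj, hij⟩ := hcon {v | v = d ∨ c d v ≠ none} ⟨d, Or.inl rfl⟩
    ⟨w, fun h1 => h1.elim hw (fun h2 => h2 hcw)⟩
  rw [Set.mem_setOf_eq, not_or, not_not] at hj
  rcases hi with rfl | hi
  · exact hij hj.2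
  · exact hdom hi hij hj.1 hj.2

end graph

section field
open Pool.Agent.Y920.ETC
variable {F : Type} [Field F] {n : ℕ} {a : Fin n → Fˣ}

/-- the graph of the nonzero symbols is connected -/
def ConnectedSymbols {F : Type*} [Field F] {n : ℕ} (a : Fin n → Fˣ) : Prop :=
  ∀ s : Set (Fin n), s.Nonempty → sᶜ.Nonempty → ∃ i ∈ s, ∃ j ∉ s, sy (a i) (a j) ≠ 0

theorem finSq_of_basis {F : Type*} [Field F] {n : ℕ} {a : Fin n → Fˣ}
    (hb : SquareClassBasis a) : FinSq F := by
  have hs : Function.Surjective (fun s : Finset (Fin n) =>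
      (QuotientGroup.mk (∏ i ∈ s, a i) : Fˣ ⧸ (powMonoidHom 2 : Fˣ →* Fˣ).range)) := by
    intro g
    obtain ⟨x, rfl⟩ := QuotientGroup.mk_surjective g
    obtain ⟨s, y, rfl⟩ := hb.span x
    refine ⟨s, ?_⟩
    show (QuotientGroup.mk (∏ i ∈ s, a i) : Fˣ ⧸ (powMonoidHom 2 : Fˣ →* Fˣ).range) =
      QuotientGroup.mk (y ^ 2 * ∏ i ∈ s, a i)
    rw [QuotientGroup.eq]
    refine ⟨y, ?_⟩
    show y ^ 2 = _
    rw [mul_comm (y ^ 2), inv_mul_cancel_left]
  exact Finite.of_surjective _ hs

/-- a connected graph of independent symbols gives a valuation -/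
theorem exists_valuation (h2 : (2 : F) ≠ 0) (hi : ∃ x : F, x ^ 2 = -1) (hn2 : 2 ≤ n)
    (hb : SquareClassBasis a) (hI : IndependentSymbols a) (hD : DistinctSymbols a)
    (hC : ConnectedSymbols a) :
    ∃ O : ValuationSubring F, Sqr O ∧
      ∃ c : Fˣ, ∀ f : Fˣ, ¬ (((c * f ^ 2 : Fˣ) : F) ∈ O ∧ (((c * f ^ 2)⁻¹ : Fˣ) : F) ∈ O) := by
  classical
  obtain ⟨S, hS, hSf, hQ⟩ := exists_structure h2 (finSq_of_basis hb)
  obtain ⟨φ, hs, hk, hn, h0, hq⟩ := id hS
  obtain ⟨m, c, hP, hcQ, hc0, v, hvm, hv0, hvs, hvq⟩ := exists_colour h2 hi hb hI hD hQ hs hk hn hq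
  have hL := linked_of_isQuat hcQ
  have hne : Nonempty (Fin n) := ⟨⟨0, by omega⟩⟩
  obtain ⟨d, hd⟩ := exists_apex hP hL (by
    intro s hs1 hs2
    obtain ⟨i, hi1, j, hj1, hij⟩ := hC s hs1 hs2
    exact ⟨i, hi1, j, hj1, fun h1 => hij ((hc0 i j).1 h1)⟩)
  have hv1 : v (-1) = 0 := (hv0 _).2 (neg_one_sq hi)
  have hvn : ∀ x, v (-x) = v x := by
    intro x
    rw [← neg_one_mul, hvm, hv1, zero_add]
  let H : Subgroup Fˣ :=
    { carrier := {x | v x d = 0}
      mul_mem' := fun {x y} hx hy => by
        show v (x * y) d = 0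
        rw [hvm, Pi.add_apply, show v x d = 0 from hx, show v y d = 0 from hy, add_zero]
      one_mem' := by
        show v 1 d = 0
        rw [(hv0 1).2 ⟨1, (one_pow 2).symm⟩]
        rfl
      inv_mem' := fun {x} hx => by
        show v x⁻¹ d = 0
        have h1 : v (x * x⁻¹) = v x + v x⁻¹ := hvm _ _
        rw [mul_inv_cancel, (hv0 1).2 ⟨1, (one_pow 2).symm⟩] at h1
        have h3 := congrFun h1 d
        rw [Pi.add_apply, show v x d = 0 from hx, zero_add] at h3
        exact h3.symm }
  have hH : ∀ x, x ∉ H ↔ v x d = 1 := by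
    intro x
    constructor
    · intro h1
      exact (zmod_cases _).resolve_left h1
    · intro h1 h3
      rw [show v x d = 0 from h3] at h1
      exact zero_ne_one h1
  have hT : ∀ x, x ∈ sqG F ↔ v x = 0 := by
    intro x
    rw [mem_sqG, hv0]
  have hnegT : (-1 : Fˣ) ∈ sqG F := (hT _).2 hv1
  -- rigidity
  have hrig : ∀ x y : Fˣ, x ∉ H → NormFrom x y → y ∈ sqG F ∨ y * x⁻¹ ∈ sqG F := by
    intro x y hx hxy
    have h1 : bt c (v x) (v y) = 0 := (hvq x y).1 (sy_of_norm x y hxy)
    rcases rigid_apex hP hL hd ((hH x).1 hx) h1 with h3 | h3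
    · exact Or.inl ((hT y).2 h3)
    · right
      rw [hT]
      have h4 : v (y * x⁻¹ * x) = v (y * x⁻¹) + v x := hvm _ _
      rw [inv_mul_cancel_right, h3] at h4
      exact (left_eq_add.1 (by rw [add_comm]; exact h4 : v x = v x + v (y * x⁻¹)))
  have hR : RigidPair (sqG F) H := by
    refine ⟨fun x => mem_sqG.2 ⟨x, (pow_two x).symm⟩, ?_, ?_, ?_⟩
    · intro x hx
      show v x d = 0
      rw [(hT x).1 hx]
      rfl
    · show v (-1) d = 0
      rw [hv1]
      rfl
    · intro x hx
      have hx' : -x ∉ H := by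
        rw [hH, hvn]
        exact (hH x).1 hx
      have hne1 : (1 : F) + x ≠ 0 := by
        intro e
        apply hx
        show v x d = 0
        have h3 : x = -1 := by
          apply Units.ext
          push_cast
          linear_combination e
        rw [h3, hv1]
        rfl
      have h1 : NormFrom (-x) (Units.mk0 _ hne1) := ⟨1, 1, by
        rw [Units.val_mk0, Units.val_neg]; ring⟩
      rcases hrig _ _ hx' h1 with h3 | h3
      · exact Or.inl ⟨_, h3, by rw [Units.val_mk0]⟩
      · right
        refine ⟨Units.mk0 _ hne1 * x⁻¹, ?_, ?_⟩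
        · rw [inv_neg, mul_neg, neg_mem_iff hnegT] at h3
          exact h3
        · rw [mul_comm x, inv_mul_cancel_right, Units.val_mk0]
  have hidx : ∀ x y : Fˣ, x ∉ H → y ∉ H → x * y ∈ H := by
    intro x y hx hy
    show v (x * y) d = 0
    rw [hvm, Pi.add_apply, (hH x).1 hx, (hH y).1 hy]
    decide
  by_cases hall : ∃ b b' : Fˣ, b ∉ sqG F ∧ (b' : F) = 1 + b ∧ b' ∉ sqG F ∧ b' * b⁻¹ ∉ sqG F
  · obtain ⟨b, b', hbT, hbe, hb'T, hbb⟩ := hall
    have hbH : b ∈ H := by
      by_contra hbH
      rcases hR.rigid b hbH with ⟨t, ht, hte⟩ | ⟨t, ht, hte⟩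
      · apply hb'T
        have : b' = t := Units.ext (by rw [hbe, hte])
        rw [this]
        exact ht
      · apply hbb
        have : b' = b * t := Units.ext (by rw [hbe, hte])
        rw [this, mul_comm b t, mul_inv_cancel_right]
        exact ht
    have hpcd : PCD (sqG F) H := pcd hR hnegT hidx hbH hbT hb'T hbb hbe
    obtain ⟨O, hO⟩ := Pool.Agent.Y447.ET.t_WB F _ _ hR hpcd
    have hTT : ∀ x : Fˣ, x ∈ sqG F ↔ ∃ y : Fˣ, x = y * y := by
      intro x
      rw [mem_sqG]
      constructor
      · rintro ⟨y, rfl⟩; exact ⟨y, pow_two y⟩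
      · rintro ⟨y, rfl⟩; exact ⟨y, (pow_two y).symm⟩
    obtain ⟨O', hOO', h2O', hO'⟩ := Pool.Agent.Y67.ET.t_COARSE F h2 _ _ hTT hR.le O hO
    refine ⟨O', ⟨h2O', h2, ?_⟩, ?_⟩
    · intro x hx hx'
      obtain ⟨t, ht, hte⟩ := hO'.one x hx hx'
      obtain ⟨y, rfl⟩ := (hTT t).1 ht
      exact ⟨y, by rw [← hte, Units.val_mul]⟩
    · obtain ⟨x, hx⟩ := hvs (e d)
      refine ⟨x, fun f ⟨h3, h4⟩ => ?_⟩
      have h5 : v (x * f ^ 2) d = 0 := hO'.units _ h3 h4
      rw [hvm, (hv0 (f ^ 2)).2 ⟨f, rfl⟩, add_zero, hx, e_same] at h5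
      exact one_ne_zero h5
  · -- all elements are rigid
    have hrig2 : ∀ x y : Fˣ, x ∉ sqG F → NormFrom x y → y ∈ sqG F ∨ y * x⁻¹ ∈ sqG F := by
      rintro x y hx ⟨r, s, hrs⟩
      by_cases hs0 : s = 0
      · left
        have hr0 : r ≠ 0 := by
          rintro rfl
          apply y.ne_zero
          rw [hrs, hs0]
          ring
        rw [mem_sqG]
        refine ⟨Units.mk0 r hr0, Units.ext ?_⟩
        push_cast
        rw [Units.val_mk0, hrs, hs0]
        ring
      · by_cases hr0 : r = 0
        · right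
          have h3 : y * x⁻¹ = -(Units.mk0 s hs0) ^ 2 := by
            apply Units.ext
            push_cast
            rw [Units.val_mk0, hrs, hr0]
            have := x.ne_zero
            field_simp
            ring
          rw [h3, neg_mem_iff hnegT, mem_sqG]
          exact ⟨_, rfl⟩
        · -- `y = r² (1 + b)`
          by_contra hcon
          rw [not_or] at hcon
          apply hall
          have hbx : -(x * (Units.mk0 s hs0 * (Units.mk0 r hr0)⁻¹) ^ 2) ∉ sqG F := by
            rw [neg_mem_iff hnegT]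
            intro h3
            exact hx (((sqG F).mul_mem_cancel_right (mem_sqG.2 ⟨_, rfl⟩)).1 h3)
          refine ⟨-(x * (Units.mk0 s hs0 * (Units.mk0 r hr0)⁻¹) ^ 2), y * ((Units.mk0 r hr0)⁻¹) ^ 2,
            hbx, ?_, ?_, ?_⟩
          · push_cast
            rw [Units.val_mk0, Units.val_mk0, hrs]
            field_simp
            ring
          · intro h3
            exact hcon.1 (((sqG F).mul_mem_cancel_right (mem_sqG.2 ⟨_, rfl⟩)).1 h3)
          · intro h3
            apply hcon.2
            have h4 : y * x⁻¹ = -(y * ((Units.mk0 r hr0)⁻¹) ^ 2 *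
                (-(x * (Units.mk0 s hs0 * (Units.mk0 r hr0)⁻¹) ^ 2))⁻¹ * (Units.mk0 s hs0) ^ 2) := by
              apply Units.ext
              push_cast
              rw [Units.val_mk0, Units.val_mk0]
              have := x.ne_zero
              field_simp
            rw [h4, neg_mem_iff hnegT]
            exact (sqG F).mul_mem h3 (mem_sqG.2 ⟨_, rfl⟩)
    have hneg : S.neg = 1 := by
      rw [← hn, hk]
      exact neg_one_sq hi
    have hHr : ∀ g : S.G, g ≠ 1 → Hr S g := by
      intro g hg f hgf
      obtain ⟨x, rfl⟩ := hs g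
      obtain ⟨y, rfl⟩ := hs f
      have h3 : NormFrom x y := (q_zero h0 hq h2 x y).1 hgf
      have h4 : x ∉ sqG F := by
        rw [mem_sqG, ← hk]
        exact hg
      rcases hrig2 x y h4 h3 with h5 | h5
      · left
        rw [hk]
        exact mem_sqG.1 h5
      · right
        rw [hneg, one_mul]
        rw [mem_sqG, ← hk, map_mul, map_inv, mul_inv_eq_one] at h5
        exact h5
    have hB : ∀ g : S.G, g ∈ (⊥ : Subgroup S.G) ↔ ¬ Bi S g := by
      intro g
      rw [Subgroup.mem_bot]
      constructor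
      · rintro rfl h3
        exact h3.1 rfl
      · intro h3
        by_contra h4
        exact h3 ⟨h4, by rw [hneg]; exact h4, hHr g h4, hHr _ (by rw [hneg, one_mul]; exact h4)⟩
    have hcard : 2 * Nat.card (⊥ : Subgroup S.G) < Nat.card S.G := by
      rw [Subgroup.card_bot]
      -- `φ` induces a surjection onto vectors
      have h3 : Function.Injective (fun f : Fin n → ZMod 2 => φ (hvs f).choose) := by
        intro f g hfg
        have h4 : φ (hvs f).choose = φ (hvs g).choose := hfg
        obtain ⟨y, hy⟩ := eq_mul_sq hk h4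
        rw [← (hvs f).choose_spec, ← (hvs g).choose_spec, hy, hvm, (hv0 (y ^ 2)).2 ⟨y, rfl⟩,
          add_zero]
      have h5 := Nat.card_le_card_of_injective _ h3
      rw [Nat.card_fun, Nat.card_zmod, Nat.card_fin] at h5
      have h6 : 2 ^ 2 ≤ 2 ^ n := Nat.pow_le_pow_right (by norm_num) hn2
      omega
    obtain ⟨O, hO, -, hc⟩ := exists_val hs hk hn h0 hq h2 ⊥ hB hcard
    exact ⟨O, hO, hc⟩

/-- the maximal pro-2 Galois group is a decomposition group -/
theorem decInert_of_connected (h2 : (2 : F) ≠ 0) (hi : ∃ x : F, x ^ 2 = -1) (hn2 : 2 ≤ n)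
    (hb : SquareClassBasis a) (hI : IndependentSymbols a) (hD : DistinctSymbols a)
    (hC : ConnectedSymbols a) (K : IntermediateField F (AlgebraicClosure F)) (hK : IsMax2 F K) :
    DecInert F K := by
  obtain ⟨O, hO, hc⟩ := exists_valuation h2 hi hn2 hb hI hD hC
  exact decInert Pool.Agent.Y620.ET.t_EXTV Pool.Agent.Y37.ET.t_MAX2 F h2 O hO hc K hK

end field

end Pool.Agent.U863.CG
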