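import Pool.Agent.U863.CG.Glue

/-! Alternating forms over the field with two elements. -/

set_option autoImplicit false

namespace Pool.Agent.U863.CG

open Pool.Agent.H315R3.ETC

/-- powers with exponent in `ZMod 2` -/
def zp {G : Type} [CommGroup G] (a : G) (x : ZMod 2) : G := if x = 0 then 1 else a

lemma zmod_cases (x : ZMod 2) : x = 0 ∨ x = 1 := by
  revert x; decide

lemma two_zero (x : ZMod 2) : x + x = 0 := by revert x; decide

lemma rearr {G : Type} [CommGroup G] (x a b c d : G) (h1 : a * c = 1) (h2 : b * d = 1) :
    x * a * b * c * d = x := by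
  have : x * a * b * c * d = x * (a * c) * (b * d) := by
    simp only [mul_comm, mul_left_comm]
  rw [this, h1, h2, mul_one, mul_one]

lemma zp_zero {G : Type} [CommGroup G] (a : G) : zp a 0 = 1 := if_pos rfl

lemma zp_one {G : Type} [CommGroup G] (a : G) : zp a 1 = a := if_neg (by decide)

lemma zp_add {G : Type} [CommGroup G] {a : G} (ha : a * a = 1) (x y : ZMod 2) :
    zp a (x + y) = zp a x * zp a y := by
  rcases zmod_cases x with rfl | rfl <;> rcases zmod_cases y with rfl | rfl
  · rw [add_zero, zp_zero, one_mul]
  · rw [zero_add, zp_zero, one_mul]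
  · rw [add_zero, zp_zero, mul_one]
  · rw [zp_one, ha, show (1 : ZMod 2) + 1 = 0 by decide, zp_zero]

lemma zp_self {G : Type} [CommGroup G] {a : G} (ha : a * a = 1) (x : ZMod 2) :
    zp a x * zp a x = 1 := by
  rcases zmod_cases x with rfl | rfl
  · rw [zp_zero, one_mul]
  · rw [zp_one, ha]

/-- the vector space case: a finite group of exponent two -/
lemma exists_basis (G : Type) [CommGroup G] [Finite G] (h2 : ∀ a : G, a * a = 1) :
    ∃ n : ℕ, Nonempty (G ≃* Multiplicative (Fin n → ZMod 2)) := by
  let _ : Module (ZMod 2) (Additive G) := AddCommGroup.zmodModule (n := 2) (fun x => by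
    rw [two_nsmul]
    exact h2 (Additive.toMul x))
  have : Module.Finite (ZMod 2) (Additive G) := Module.Finite.of_finite
  let b := Module.finBasis (ZMod 2) (Additive G)
  exact ⟨_, ⟨AddEquiv.toMultiplicativeRight b.equivFun.toAddEquiv⟩⟩

/-- alternating forms on groups of exponent two -/
structure Alt {G : Type} [CommGroup G] (B : G → G → ZMod 2) : Prop where
  exp2 : ∀ a : G, a * a = 1
  mul_left : ∀ a b c : G, B (a * b) c = B a c + B b c
  symm : ∀ a b : G, B a b = B b a
  alt : ∀ a : G, B a a = 0

section
variable {G : Type} [CommGroup G] {B : G → G → ZMod 2} (h : Alt B)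
include h

lemma Alt.mul_right (a b c : G) : B c (a * b) = B c a + B c b := by
  rw [h.symm c (a * b), h.mul_left, h.symm a c, h.symm b c]

lemma Alt.one_left (c : G) : B 1 c = 0 := by
  have := h.mul_left 1 1 c
  rw [one_mul] at this
  exact left_eq_add.1 this

lemma Alt.one_right (c : G) : B c 1 = 0 := by
  rw [h.symm, h.one_left]

lemma Alt.zp_left (a c : G) (x : ZMod 2) : B (zp a x) c = x * B a c := by
  rcases zmod_cases x with rfl | rfl
  · rw [zp_zero, h.one_left, zero_mul]
  · rw [zp_one, one_mul]

lemma Alt.zp_right (a c : G) (x : ZMod 2) : B c (zp a x) = x * B c a := by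
  rw [h.symm, h.zp_left, h.symm]

/-- the orthogonal complement of two elements -/
def orth (a b : G) : Subgroup G where
  carrier := {x | B a x = 0 ∧ B b x = 0}
  mul_mem' {x y} hx hy := ⟨by rw [h.mul_right, hx.1, hy.1, add_zero],
    by rw [h.mul_right, hx.2, hy.2, add_zero]⟩
  one_mem' := ⟨h.one_right _, h.one_right _⟩
  inv_mem' {x} hx := by
    rw [inv_eq_of_mul_eq_one_left (h.exp2 x)]
    exact hx

lemma mem_orth {a b x : G} : x ∈ orth h a b ↔ B a x = 0 ∧ B b x = 0 := Iff.rfl

lemma proj_mem {a b : G} (hab : B a b = 1) (x : G) :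
    x * zp a (B b x) * zp b (B a x) ∈ orth h a b := by
  rw [mem_orth]
  constructor
  · rw [h.mul_right, h.mul_right, h.zp_right, h.zp_right, h.alt, hab, mul_zero, add_zero, mul_one]
    exact two_zero _
  · rw [h.mul_right, h.mul_right, h.zp_right, h.zp_right, h.alt, h.symm b a, hab, mul_zero,
      add_zero, mul_one]
    exact two_zero _

/-- the projection to the complement -/
def proj {a b : G} (hab : B a b = 1) : G →* orth h a b where
  toFun x := ⟨x * zp a (B b x) * zp b (B a x), proj_mem h hab x⟩
  map_one' := by
    apply Subtype.ext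
    show 1 * zp a (B b 1) * zp b (B a 1) = 1
    rw [h.one_right, h.one_right, zp_zero, zp_zero, one_mul, one_mul]
  map_mul' x y := by
    apply Subtype.ext
    show x * y * zp a (B b (x * y)) * zp b (B a (x * y)) =
      (x * zp a (B b x) * zp b (B a x)) * (y * zp a (B b y) * zp b (B a y))
    rw [h.mul_right, h.mul_right, zp_add (h.exp2 a), zp_add (h.exp2 b)]
    generalize zp a (B b x) = p
    generalize zp a (B b y) = r
    generalize zp b (B a x) = u
    generalize zp b (B a y) = v
    rw [mul_mul_mul_comm (x * p) u (y * r) v, mul_mul_mul_comm x p y r]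

lemma proj_val {a b : G} (hab : B a b = 1) (x : G) :
    (proj h hab x : G) = x * zp a (B b x) * zp b (B a x) := rfl

lemma eq_proj {a b : G} (hab : B a b = 1) (x : G) :
    (proj h hab x : G) * zp a (B b x) * zp b (B a x) = x := by
  rw [proj_val]
  exact rearr _ _ _ _ _ (zp_self (h.exp2 a) _) (zp_self (h.exp2 b) _)

end

section
variable {G V : Type} [CommGroup G] {B : G → G → ZMod 2} (h : Alt B)

/-- the coordinates -/
noncomputable def coord {a b : G} (hab : B a b = 1)
    (ψ : orth h a b ≃* Multiplicative (V → ZMod 2)) : G →* Multiplicative (V ⊕ Bool → ZMod 2) where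
  toFun x := Multiplicative.ofAdd (join (Equiv.refl (V ⊕ Bool)) (Multiplicative.toAdd
    (ψ (proj h hab x))) (fun k => if k then B a x else B b x))
  map_one' := by
    rw [map_one, map_one]
    funext v
    rcases v with i | k
    · rfl
    · rcases k with - | -
      · exact h.one_right b
      · exact h.one_right a
  map_mul' x y := by
    rw [map_mul, map_mul]
    funext v
    rcases v with i | k
    · rfl
    · rcases k with - | -
      · exact h.mul_right x y b
      · exact h.mul_right x y a

lemma coord_inl {a b : G} (hab : B a b = 1) (ψ : orth h a b ≃* Multiplicative (V → ZMod 2)) (x : G)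
    (i : V) : Multiplicative.toAdd (coord h hab ψ x) (Sum.inl i) =
      Multiplicative.toAdd (ψ (proj h hab x)) i := rfl

lemma coord_true {a b : G} (hab : B a b = 1) (ψ : orth h a b ≃* Multiplicative (V → ZMod 2)) (x : G) :
    Multiplicative.toAdd (coord h hab ψ x) (Sum.inr true) = B a x := rfl

lemma coord_false {a b : G} (hab : B a b = 1) (ψ : orth h a b ≃* Multiplicative (V → ZMod 2)) (x : G) :
    Multiplicative.toAdd (coord h hab ψ x) (Sum.inr false) = B b x := rfl

lemma coord_inj {a b : G} (hab : B a b = 1) (ψ : orth h a b ≃* Multiplicative (V → ZMod 2)) :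
    Function.Injective (coord h hab ψ) := by
  intro x y hxy
  have h1 : B a x = B a y := by
    rw [← coord_true h hab ψ, hxy, coord_true h hab ψ]
  have h2 : B b x = B b y := by
    rw [← coord_false h hab ψ, hxy, coord_false h hab ψ]
  have h3 : ψ (proj h hab x) = ψ (proj h hab y) := by
    funext i
    exact congrFun (congrArg Multiplicative.toAdd hxy) (Sum.inl i)
  rw [← eq_proj h hab x, ← eq_proj h hab y, ψ.injective h3, h1, h2]

lemma coord_surj {a b : G} (hab : B a b = 1) (ψ : orth h a b ≃* Multiplicative (V → ZMod 2)) :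
    Function.Surjective (coord h hab ψ) := by
  intro y
  obtain ⟨z, hz⟩ := ψ.surjective (Multiplicative.ofAdd fun i => Multiplicative.toAdd y (Sum.inl i))
  have hz1 : B a (z : G) = 0 := z.2.1
  have hz2 : B b (z : G) = 0 := z.2.2
  set s := Multiplicative.toAdd y (Sum.inr false) with hs
  set t := Multiplicative.toAdd y (Sum.inr true) with ht
  have h1 : B a ((z : G) * zp a s * zp b t) = t := by
    rw [h.mul_right, h.mul_right, h.zp_right, h.zp_right, h.alt, hab, hz1]
    ring
  have h2 : B b ((z : G) * zp a s * zp b t) = s := by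
    rw [h.mul_right, h.mul_right, h.zp_right, h.zp_right, h.alt, h.symm b a, hab, hz2]
    ring
  have h3 : proj h hab ((z : G) * zp a s * zp b t) = z := by
    apply Subtype.ext
    rw [proj_val, h1, h2]
    exact rearr _ _ _ _ _ (zp_self (h.exp2 a) _) (zp_self (h.exp2 b) _)
  refine ⟨(z : G) * zp a s * zp b t, ?_⟩
  funext v
  rcases v with i | k
  · show Multiplicative.toAdd (ψ (proj h hab _)) i = _
    rw [h3, hz]
    rfl
  · rcases k with - | -
    · exact h2
    · exact h1

/-- the colouring with one more edge -/
def addEdge (c : V → V → Option Unit) : V ⊕ Bool → V ⊕ Bool → Option Unit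
  | Sum.inl i, Sum.inl j => c i j
  | Sum.inr k, Sum.inr l => if k = l then none else some ()
  | _, _ => none

lemma addEdge_proper {c : V → V → Option Unit} (hc : ProperColouring c) :
    ProperColouring (addEdge c) := by
  refine ⟨?_, ?_, ?_⟩
  · rintro (i | k) (j | l)
    · exact hc.symm i j
    · rfl
    · rfl
    · simp only [addEdge, eq_comm]
  · rintro (i | k)
    · exact hc.irrefl i
    · simp [addEdge]
  · rintro (i | i) (j | j) (k | k) t h1 h2
    · rw [hc.proper i j k t h1 h2]
    · exact absurd h2 (by simp [addEdge])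
    · exact absurd h1 (by simp [addEdge])
    · exact absurd h1 (by simp [addEdge])
    · exact absurd h1 (by simp [addEdge])
    · exact absurd h1 (by simp [addEdge])
    · exact absurd h2 (by simp [addEdge])
    · simp only [addEdge] at h1 h2
      cases i <;> cases j <;> cases k <;> simp_all

lemma bt_addEdge [Fintype V] {c : V → V → Option Unit} (hc : ProperColouring c) (a x : V → ZMod 2)
    (b y : Bool → ZMod 2) :
    bt (addEdge c) (join (Equiv.refl (V ⊕ Bool)) a b) (join (Equiv.refl (V ⊕ Bool)) x y) () =
      bt c a x () + (b true * y false + b false * y true) := by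
  rw [bt_join (addEdge c) (addEdge_proper hc).symm (Equiv.refl (V ⊕ Bool)) (fun i j => rfl)]
  congr 1
  unfold bt
  simp [addEdge]

end

/-- normal form of alternating forms -/
theorem exists_form (n : ℕ) : ∀ (G : Type) [CommGroup G] [Finite G] (B : G → G → ZMod 2),
    Nat.card G = n → Alt B → ∃ (V : Type) (_ : Fintype V) (c : V → V → Option Unit),
      ProperColouring c ∧ ∃ φ : G ≃* Multiplicative (V → ZMod 2),
        ∀ a b : G, B a b = bt c (Multiplicative.toAdd (φ a)) (Multiplicative.toAdd (φ b)) () := by
  classical
  induction n using Nat.strong_induction_on with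
  | _ n ih =>
  intro G _ _ B hn h
  by_cases h0 : ∀ a b, B a b = 0
  · obtain ⟨m, ⟨φ⟩⟩ := exists_basis G h.exp2
    refine ⟨Fin m, inferInstance, fun _ _ => none, ⟨fun _ _ => rfl, fun _ => rfl, ?_⟩, φ, ?_⟩
    · intro i j k t h1
      exact absurd h1 (by simp)
    · intro a b
      rw [h0, bt_unused]
      simp
  · push Not at h0
    obtain ⟨a, b, hab⟩ := h0
    have hab1 : B a b = 1 := (zmod_cases _).resolve_left hab
    have hB : Alt (fun x y : orth h a b => B x y) :=
      ⟨fun x => Subtype.ext (h.exp2 x), fun x y z => h.mul_left x y z, fun x y => h.symm x y,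
        fun x => h.alt x⟩
    have hlt : Nat.card (orth h a b) < n := by
      rw [← hn]
      have h1 : orth h a b ≠ ⊤ := by
        intro h2
        have h3 : b ∈ orth h a b := by rw [h2]; trivial
        exact hab h3.1
      have h2 := (orth h a b).card_mul_index
      have h3 : (orth h a b).index ≠ 1 := fun h4 => h1 (Subgroup.index_eq_one.1 h4)
      have h4 : 0 < Nat.card G := Nat.card_pos
      have h5 : (orth h a b).index ≠ 0 := Subgroup.index_ne_zero_of_finite
      have h6 : 0 < Nat.card (orth h a b) := Nat.card_pos
      rw [← h2]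
      have h7 : 2 ≤ (orth h a b).index := by omega
      nlinarith
    obtain ⟨V, hV, c, hc, ψ, hψ⟩ := ih _ hlt (orth h a b) _ rfl hB
    refine ⟨V ⊕ Bool, inferInstance, addEdge c, addEdge_proper hc,
      MulEquiv.ofBijective (coord h hab1 ψ) ⟨coord_inj h hab1 ψ, coord_surj h hab1 ψ⟩, ?_⟩
    intro x y
    have h1 := bt_addEdge hc (Multiplicative.toAdd (ψ (proj h hab1 x)))
      (Multiplicative.toAdd (ψ (proj h hab1 y))) (fun k => if k then B a x else B b x)
      (fun k => if k then B a y else B b y)
    refine Eq.trans ?_ h1.symm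
    rw [← hψ]
    show B x y = B (proj h hab1 x : G) (proj h hab1 y : G) + (B a x * B b y + B b x * B a y)
    have h2 : ∀ z : G, B z (proj h hab1 x : G) = B z x + B b x * B z a + B a x * B z b := by
      intro z
      rw [proj_val, h.mul_right, h.mul_right, h.zp_right, h.zp_right]
    have h3 : ∀ z : G, B z (proj h hab1 y : G) = B z y + B b y * B z a + B a y * B z b := by
      intro z
      rw [proj_val, h.mul_right, h.mul_right, h.zp_right, h.zp_right]
    have ha : B a (proj h hab1 y : G) = 0 := (proj h hab1 y).2.1
    have hb : B b (proj h hab1 y : G) = 0 := (proj h hab1 y).2.2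
    rw [h.symm (proj h hab1 x : G) (proj h hab1 y : G), h2, h.symm _ a, h.symm _ b, ha, hb,
      h.symm (proj h hab1 y : G) x, h3, h.symm x a, h.symm x b]
    generalize B x y = r
    generalize B a x = s
    generalize B b x = t
    generalize B a y = u
    generalize B b y = v
    revert r s t u v
    decide

end Pool.Agent.U863.CG
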