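import Pool.Agent.U863.CG.Base

/-! Direct products and group extensions of the structures of edge-coloured graphs. -/

set_option autoImplicit false

namespace Pool.Agent.U863.CG

open Pool.Agent.H315R3.ETC

section map
variable {V K K' : Type} [Fintype V] {c : V → V → Option K} {c' : V → V → Option K'} {g : K' → K}

lemma bt_map (hg : Function.Injective g) (h : ∀ i j, c i j = (c' i j).map g) (a b : V → ZMod 2)
    (t : K') : bt c a b (g t) = bt c' a b t := by
  classical
  unfold bt
  refine Finset.sum_congr rfl fun i _ => Finset.sum_congr rfl fun j _ => ?_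
  have e1 : c i j = some (g t) ↔ c' i j = some t := by
    rw [h]
    rcases hc : c' i j with - | s
    · simp
    · simp [hg.eq_iff]
  simp only [e1]

lemma bt_unused (a b : V → ZMod 2) (t : K) (h : ∀ i j, c i j ≠ some t) : bt c a b t = 0 := by
  classical
  unfold bt
  exact Finset.sum_eq_zero fun i _ => Finset.sum_eq_zero fun j _ => if_neg (h i j)

lemma bt_map_iff (hg : Function.Injective g) (h : ∀ i j, c i j = (c' i j).map g)
    (a b x y : V → ZMod 2) : bt c a b = bt c x y ↔ bt c' a b = bt c' x y := by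
  constructor
  · intro h1
    funext t
    rw [← bt_map hg h, ← bt_map hg h, h1]
  · intro h1
    funext t
    by_cases ht : ∃ s, g s = t
    · obtain ⟨s, rfl⟩ := ht
      rw [bt_map hg h, bt_map hg h, h1]
    · have : ∀ i j, c i j ≠ some t := by
        intro i j hc
        rw [h] at hc
        obtain ⟨s, -, hs⟩ := Option.map_eq_some_iff.1 hc
        exact ht ⟨s, hs⟩
      rw [bt_unused _ _ _ this, bt_unused _ _ _ this]

end map

section prod
variable {V V₁ V₂ K : Type} [Fintype V] [Fintype V₁] [Fintype V₂]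

/-- gluing two functions -/
def join (f : V₁ ⊕ V₂ ≃ V) (a : V₁ → ZMod 2) (b : V₂ → ZMod 2) : V → ZMod 2 :=
  fun v => Sum.elim a b (f.symm v)

/-- the isomorphism of the groups -/
def joinEquiv (f : V₁ ⊕ V₂ ≃ V) :
    Multiplicative (V₁ → ZMod 2) × Multiplicative (V₂ → ZMod 2) ≃* Multiplicative (V → ZMod 2) where
  toFun p := Multiplicative.ofAdd (join f (Multiplicative.toAdd p.1) (Multiplicative.toAdd p.2))
  invFun a := (Multiplicative.ofAdd fun i => Multiplicative.toAdd a (f (Sum.inl i)),
    Multiplicative.ofAdd fun i => Multiplicative.toAdd a (f (Sum.inr i)))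
  left_inv p := by
    refine Prod.ext ?_ ?_
    · funext i
      show Sum.elim _ _ (f.symm (f (Sum.inl i))) = _
      rw [Equiv.symm_apply_apply]
      rfl
    · funext i
      show Sum.elim _ _ (f.symm (f (Sum.inr i))) = _
      rw [Equiv.symm_apply_apply]
      rfl
  right_inv a := by
    funext v
    show Sum.elim (fun i => (Multiplicative.toAdd a) (f (Sum.inl i)))
      (fun i => (Multiplicative.toAdd a) (f (Sum.inr i))) (f.symm v) = (Multiplicative.toAdd a) v
    rcases hv : f.symm v with i | i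
    · rw [Sum.elim_inl, ← hv, Equiv.apply_symm_apply]
    · rw [Sum.elim_inr, ← hv, Equiv.apply_symm_apply]
  map_mul' p q := by
    funext v
    show Sum.elim (Multiplicative.toAdd p.1 + Multiplicative.toAdd q.1)
      (Multiplicative.toAdd p.2 + Multiplicative.toAdd q.2) (f.symm v) =
      Sum.elim _ _ (f.symm v) + Sum.elim _ _ (f.symm v)
    rcases f.symm v with i | i
    · rfl
    · rfl

lemma bt_join (c : V → V → Option K) (hc : ∀ i j, c i j = c j i) (f : V₁ ⊕ V₂ ≃ V)
    (h12 : ∀ i j, c (f (Sum.inl i)) (f (Sum.inr j)) = none) (a x : V₁ → ZMod 2)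
    (b y : V₂ → ZMod 2) (t : K) :
    bt c (join f a b) (join f x y) t =
      bt (fun i j => c (f (Sum.inl i)) (f (Sum.inl j))) a x t +
      bt (fun i j => c (f (Sum.inr i)) (f (Sum.inr j))) b y t := by
  classical
  have h21 : ∀ i j, c (f (Sum.inr i)) (f (Sum.inl j)) = none := fun i j => by
    rw [hc]; exact h12 j i
  unfold bt
  rw [← f.sum_comp, Fintype.sum_sum_type]
  congr 1
  · refine Finset.sum_congr rfl fun i _ => ?_
    rw [← f.sum_comp, Fintype.sum_sum_type]
    have e1 : ∀ j : V₂, (if c (f (Sum.inl i)) (f (Sum.inr j)) = some t then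
        join f a b (f (Sum.inl i)) * join f x y (f (Sum.inr j)) else 0) = 0 := by
      intro j
      rw [h12, if_neg (by simp)]
    simp only [e1, Finset.sum_const_zero, add_zero]
    simp only [join, Equiv.symm_apply_apply, Sum.elim_inl]
  · refine Finset.sum_congr rfl fun i _ => ?_
    rw [← f.sum_comp, Fintype.sum_sum_type]
    have e1 : ∀ j : V₁, (if c (f (Sum.inr i)) (f (Sum.inl j)) = some t then
        join f a b (f (Sum.inr i)) * join f x y (f (Sum.inl j)) else 0) = 0 := by
      intro j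
      rw [h21, if_neg (by simp)]
    simp only [e1, Finset.sum_const_zero, zero_add]
    simp only [join, Equiv.symm_apply_apply, Sum.elim_inr]

/-- disjoint unions of edge-coloured graphs without common colours -/
theorem iso_prod {K₁ K₂ : Type} {c : V → V → Option K} {c₁ : V₁ → V₁ → Option K₁}
    {c₂ : V₂ → V₂ → Option K₂} (hc : ∀ i j, c i j = c j i) (f : V₁ ⊕ V₂ ≃ V) {g₁ : K₁ → K}
    {g₂ : K₂ → K} (hg₁ : Function.Injective g₁) (hg₂ : Function.Injective g₂)
    (h11 : ∀ i j, c (f (Sum.inl i)) (f (Sum.inl j)) = (c₁ i j).map g₁)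
    (h22 : ∀ i j, c (f (Sum.inr i)) (f (Sum.inr j)) = (c₂ i j).map g₂)
    (h12 : ∀ i j, c (f (Sum.inl i)) (f (Sum.inr j)) = none)
    (hd : ∀ i j k l t, c (f (Sum.inl i)) (f (Sum.inl j)) = some t →
      c (f (Sum.inr k)) (f (Sum.inr l)) ≠ some t) :
    Iso (prod (colourStructure c₁) (colourStructure c₂)) (colourStructure c) := by
  have key : ∀ (a₁ b₁ x₁ y₁ : V₁ → ZMod 2) (a₂ b₂ x₂ y₂ : V₂ → ZMod 2),
      (bt c₁ a₁ b₁ = bt c₁ x₁ y₁ ∧ bt c₂ a₂ b₂ = bt c₂ x₂ y₂) ↔
        bt c (join f a₁ a₂) (join f b₁ b₂) = bt c (join f x₁ x₂) (join f y₁ y₂) := by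
    intro a₁ b₁ x₁ y₁ a₂ b₂ x₂ y₂
    rw [← bt_map_iff hg₁ h11, ← bt_map_iff hg₂ h22]
    constructor
    · rintro ⟨h1, h2⟩
      funext t
      rw [bt_join c hc f h12, bt_join c hc f h12, h1, h2]
    · intro h
      have h3 : ∀ t, bt c (join f a₁ a₂) (join f b₁ b₂) t =
        bt c (join f x₁ x₂) (join f y₁ y₂) t := fun t => congrFun h t
      simp only [bt_join c hc f h12] at h3
      constructor
      · funext t
        by_cases hu : ∀ i j, c (f (Sum.inl i)) (f (Sum.inl j)) ≠ some t
        · rw [bt_unused _ _ _ hu, bt_unused _ _ _ hu]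
        · push Not at hu
          obtain ⟨i, j, hij⟩ := hu
          have h4 := h3 t
          rwa [bt_unused (c := fun i j => c (f (Sum.inr i)) (f (Sum.inr j))) a₂ b₂ t
            (fun k l => hd i j k l t hij),
            bt_unused (c := fun i j => c (f (Sum.inr i)) (f (Sum.inr j)))
            x₂ y₂ t (fun k l => hd i j k l t hij), add_zero, add_zero] at h4
      · funext t
        by_cases hu : ∀ i j, c (f (Sum.inr i)) (f (Sum.inr j)) ≠ some t
        · rw [bt_unused _ _ _ hu, bt_unused _ _ _ hu]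
        · push Not at hu
          obtain ⟨k, l, hkl⟩ := hu
          have h4 := h3 t
          rwa [bt_unused (c := fun i j => c (f (Sum.inl i)) (f (Sum.inl j))) a₁ b₁ t
            (fun i j hij => hd i j k l t hij hkl),
            bt_unused (c := fun i j => c (f (Sum.inl i)) (f (Sum.inl j)))
            x₁ y₁ t (fun i j hij => hd i j k l t hij hkl), zero_add, zero_add] at h4
  refine ⟨joinEquiv f, map_one (joinEquiv f), ?_⟩
  rintro ⟨a₁, a₂⟩ ⟨b₁, b₂⟩ ⟨x₁, x₂⟩ ⟨y₁, y₂⟩
  exact Iff.trans Prod.ext_iff (key a₁ b₁ x₁ y₁ a₂ b₂ x₂ y₂)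

end prod

end Pool.Agent.U863.CG
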