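import Pool.Agent.U863.CG.Suff
import Pool.Agent.U863.CG.Form

/-! Structures of elementary type with `-1 = 1` are structures of edge-coloured graphs. -/

set_option autoImplicit false

namespace Pool.Agent.U863.CG

open Pool.Agent.H315R3.ETC Pool.Agent.TH673.VG

/-- the structure is isomorphic to the structure of a properly edge-coloured finite graph -/
def IsColour (S : QData) : Prop :=
  ∃ (V K : Type) (_ : Fintype V) (c : V → V → Option K), ProperColouring c ∧
    Iso S (colourStructure c)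

lemma iso_symm {S T : QData} (e : Iso S T) : Iso T S := by
  obtain ⟨φ, hn, hq⟩ := e
  refine ⟨φ.symm, ?_, ?_⟩
  · rw [← hn, φ.symm_apply_apply]
  · intro a b c d
    rw [hq, φ.apply_symm_apply, φ.apply_symm_apply, φ.apply_symm_apply, φ.apply_symm_apply]

lemma iso_trans {S T U : QData} (e : Iso S T) (f : Iso T U) : Iso S U := by
  obtain ⟨φ, hn, hq⟩ := e
  obtain ⟨ψ, hn', hq'⟩ := f
  refine ⟨φ.trans ψ, ?_, ?_⟩
  · show ψ (φ S.neg) = _
    rw [hn, hn']
  · intro a b c d
    rw [hq, hq']
    rfl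

lemma prod_congr {S S' T T' : QData} (e : Iso S S') (f : Iso T T') :
    Iso (prod S T) (prod S' T') := by
  obtain ⟨φ, hn, hq⟩ := e
  obtain ⟨ψ, hn', hq'⟩ := f
  refine ⟨φ.prodCongr ψ, Prod.ext hn hn', ?_⟩
  rintro ⟨a₁, a₂⟩ ⟨b₁, b₂⟩ ⟨c₁, c₂⟩ ⟨d₁, d₂⟩
  refine Iff.trans Prod.ext_iff (Iff.trans ?_ Prod.ext_iff.symm)
  exact and_congr (hq a₁ b₁ c₁ d₁) (hq' a₂ b₂ c₂ d₂)

lemma map_pw {G H : Type} [CommGroup G] [CommGroup H] (φ : G ≃* H) (a : G) (x : C2) :
    φ (pw a x) = pw (φ a) x := by
  unfold pw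
  split_ifs
  · exact map_one φ
  · rfl

lemma ext_congr {S S' : QData} (e : Iso S S') : Iso (ext S) (ext S') := by
  obtain ⟨φ, hn, hq⟩ := e
  refine ⟨φ.prodCongr (MulEquiv.refl C2), Prod.ext hn rfl, ?_⟩
  rintro ⟨a₁, a₂⟩ ⟨b₁, b₂⟩ ⟨c₁, c₂⟩ ⟨d₁, d₂⟩
  refine Iff.trans Prod.ext_iff (Iff.trans ?_ Prod.ext_iff.symm)
  refine and_congr (hq a₁ b₁ c₁ d₁) ?_
  show pw (pw S.neg a₂) b₂ * pw a₁ b₂ * pw b₁ a₂ = pw (pw S.neg c₂) d₂ * pw c₁ d₂ * pw d₁ c₂ ↔
    pw (pw S'.neg a₂) b₂ * pw (φ a₁) b₂ * pw (φ b₁) a₂ =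
      pw (pw S'.neg c₂) d₂ * pw (φ c₁) d₂ * pw (φ d₁) c₂
  rw [← φ.injective.eq_iff]
  simp only [map_mul, map_pw, hn]

/-- disjoint unions -/
def sumColour {V₁ V₂ K₁ K₂ : Type} (c₁ : V₁ → V₁ → Option K₁) (c₂ : V₂ → V₂ → Option K₂) :
    V₁ ⊕ V₂ → V₁ ⊕ V₂ → Option (K₁ ⊕ K₂)
  | Sum.inl i, Sum.inl j => (c₁ i j).map Sum.inl
  | Sum.inr i, Sum.inr j => (c₂ i j).map Sum.inr
  | _, _ => none

lemma map_some {A B : Type} {f : A → B} {x : Option A} {y : B} (h : x.map f = some y) :
    ∃ a, x = some a ∧ f a = y := Option.map_eq_some_iff.1 h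

lemma sumColour_proper {V₁ V₂ K₁ K₂ : Type} {c₁ : V₁ → V₁ → Option K₁} {c₂ : V₂ → V₂ → Option K₂}
    (h₁ : ProperColouring c₁) (h₂ : ProperColouring c₂) : ProperColouring (sumColour c₁ c₂) := by
  refine ⟨?_, ?_, ?_⟩
  · rintro (i | i) (j | j)
    · simp only [sumColour, h₁.symm i j]
    · rfl
    · rfl
    · simp only [sumColour, h₂.symm i j]
  · rintro (i | i)
    · simp only [sumColour, h₁.irrefl i, Option.map_none]
    · simp only [sumColour, h₂.irrefl i, Option.map_none]
  · rintro (i | i) (j | j) (k | k) t h3 h4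
    · obtain ⟨s, h5, h6⟩ := map_some h3
      obtain ⟨s', h7, h8⟩ := map_some h4
      rw [← h6] at h8
      rw [Sum.inl.inj h8] at h7
      rw [h₁.proper i j k s h5 h7]
    · exact absurd h4 (by simp [sumColour])
    · exact absurd h3 (by simp [sumColour])
    · exact absurd h3 (by simp [sumColour])
    · exact absurd h3 (by simp [sumColour])
    · exact absurd h3 (by simp [sumColour])
    · exact absurd h4 (by simp [sumColour])
    · obtain ⟨s, h5, h6⟩ := map_some h3
      obtain ⟨s', h7, h8⟩ := map_some h4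
      rw [← h6] at h8
      rw [Sum.inr.inj h8] at h7
      rw [h₂.proper i j k s h5 h7]

theorem isColour_prod {S T : QData} (hS : IsColour S) (hT : IsColour T) : IsColour (prod S T) := by
  obtain ⟨V₁, K₁, _, c₁, h₁, e₁⟩ := hS
  obtain ⟨V₂, K₂, _, c₂, h₂, e₂⟩ := hT
  refine ⟨V₁ ⊕ V₂, K₁ ⊕ K₂, inferInstance, sumColour c₁ c₂, sumColour_proper h₁ h₂,
    iso_trans (prod_congr e₁ e₂) ?_⟩
  refine iso_prod (sumColour_proper h₁ h₂).symm (Equiv.refl _) Sum.inl_injective
    Sum.inr_injective (fun _ _ => rfl) (fun _ _ => rfl) (fun _ _ => rfl) ?_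
  intro i j k l t h3 h4
  obtain ⟨s, -, h6⟩ := map_some h3
  obtain ⟨s', -, h8⟩ := map_some h4
  rw [← h6] at h8
  exact absurd h8 (by simp)

/-- cones -/
def coneColour {V₁ K₁ : Type} (c₁ : V₁ → V₁ → Option K₁) :
    Option V₁ → Option V₁ → Option (K₁ ⊕ V₁)
  | some i, some j => (c₁ i j).map Sum.inl
  | some i, none => some (Sum.inr i)
  | none, some i => some (Sum.inr i)
  | none, none => none

lemma coneColour_proper {V₁ K₁ : Type} {c₁ : V₁ → V₁ → Option K₁} (h₁ : ProperColouring c₁) :
    ProperColouring (coneColour c₁) := by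
  refine ⟨?_, ?_, ?_⟩
  · rintro (- | i) (- | j)
    · rfl
    · rfl
    · rfl
    · simp only [coneColour, h₁.symm i j]
  · rintro (- | i)
    · rfl
    · simp only [coneColour, h₁.irrefl i, Option.map_none]
  · rintro (- | i) (- | j) (- | k) t h3 h4
    · rfl
    · exact absurd h3 (by simp [coneColour])
    · exact absurd h4 (by simp [coneColour])
    · simp only [coneColour, Option.some.injEq] at h3 h4
      rw [← h3] at h4
      rw [Sum.inr.inj h4]
    · rfl
    · obtain ⟨s, -, h5⟩ := map_some h4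
      simp only [coneColour, Option.some.injEq] at h3
      rw [← h3] at h5
      exact absurd h5 (by simp)
    · obtain ⟨s, -, h5⟩ := map_some h3
      simp only [coneColour, Option.some.injEq] at h4
      rw [← h4] at h5
      exact absurd h5 (by simp)
    · obtain ⟨s, h5, h6⟩ := map_some h3
      obtain ⟨s', h7, h8⟩ := map_some h4
      rw [← h6] at h8
      rw [Sum.inl.inj h8] at h7
      rw [h₁.proper i j k s h5 h7]

theorem isColour_ext {S : QData} (hS : IsColour S) : IsColour (ext S) := by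
  obtain ⟨V₁, K₁, _, c₁, h₁, e₁⟩ := hS
  refine ⟨Option V₁, K₁ ⊕ V₁, inferInstance, coneColour c₁, coneColour_proper h₁,
    iso_trans (ext_congr e₁) ?_⟩
  refine iso_ext (coneColour_proper h₁).symm (Equiv.refl _) Sum.inl_injective
    Sum.inr_injective rfl (fun _ => rfl) (fun _ _ => rfl) ?_
  intro i j k h3
  obtain ⟨s, -, h5⟩ := map_some h3
  exact absurd h5 (by simp)

/-- two values -/
theorem isColour_two {S : QData} (h : IsQuat S) [Finite S.G] (hn : S.neg = 1) (t : S.Q)
    (ht : ∀ a b : S.G, S.q a b = S.zero ∨ S.q a b = t) : IsColour S := by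
  classical
  let B : S.G → S.G → ZMod 2 := fun a b => if S.q a b = S.zero then 0 else 1
  have hB0 : ∀ a b, B a b = 0 ↔ S.q a b = S.zero := by
    intro a b
    show (if S.q a b = S.zero then (0 : ZMod 2) else 1) = 0 ↔ _
    split_ifs with h1
    · simp [h1]
    · simp [h1]
  have hsymm : ∀ a b, B a b = B b a := by
    intro a b
    show (if S.q a b = S.zero then (0 : ZMod 2) else 1) = if S.q b a = S.zero then 0 else 1
    rw [h.qs2]
  have heq : ∀ a b c d, B a b = B c d ↔ S.q a b = S.q c d := by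
    intro a b c d
    rcases ht a b with h1 | h1
    · rw [(hB0 a b).2 h1, h1, eq_comm, hB0, eq_comm]
    · rcases ht c d with h2 | h2
      · rw [(hB0 c d).2 h2, h2, hB0]
      · rw [h1, h2]
        show (if S.q a b = S.zero then (0 : ZMod 2) else 1) =
          (if S.q c d = S.zero then 0 else 1) ↔ _
        rw [h1, h2]
        exact ⟨fun _ => rfl, fun _ => rfl⟩
  have hA : Alt B := by
    refine ⟨h.exp2, ?_, hsymm, ?_⟩
    · intro a b c
      rw [hsymm (a * b), hsymm a, hsymm b]
      by_cases h1 : B c a = B c b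
      · rw [h1, two_zero, hB0, ← h.qs3]
        exact (heq _ _ _ _).1 h1
      · have h2 : B c (a * b) ≠ 0 := by
          rw [Ne, hB0, ← h.qs3, ← heq]
          exact h1
        revert h1 h2
        generalize B c a = x
        generalize B c b = y
        generalize B c (a * b) = z
        revert x y z
        decide
    · intro a
      rw [hB0]
      have := h.qs1 a
      rwa [hn, one_mul] at this
  obtain ⟨V, hV, c, hc, φ, hφ⟩ := exists_form _ S.G B rfl hA
  refine ⟨V, Unit, hV, c, hc, φ, ?_, ?_⟩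
  · rw [hn]
    exact map_one φ
  · intro a b x y
    rw [← heq, hφ, hφ]
    constructor
    · intro h1
      funext u
      exact h1
    · intro h1
      exact congrFun h1 ()

theorem isColour_of_elem (S : QData) (hE : Elem S) : IsQuat (fz S) → S.neg = 1 → IsColour S := by
  induction hE with
  | l0 =>
    intro _ _
    refine ⟨Empty, Empty, inferInstance, fun _ _ => none, ⟨fun _ _ => rfl, fun _ => rfl, ?_⟩, ?_⟩
    · intro i
      exact i.elim
    · refine ⟨?_, ?_, ?_⟩
      · refine MulEquiv.mk' ⟨fun _ => 1, fun _ => (), fun _ => rfl, fun a => ?_⟩ fun _ _ => ?_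
        · funext v
          exact v.elim
        · funext v
          exact v.elim
      · funext v
        exact v.elim
      · intro a b x y
        refine ⟨fun _ => ?_, fun _ => rfl⟩
        rfl
  | l10 =>
    intro _ _
    refine ⟨Unit, Empty, inferInstance, fun _ _ => none, ⟨fun _ _ => rfl, fun _ => rfl, ?_⟩, ?_⟩
    · intro i j k t
      exact t.elim
    · refine ⟨?_, ?_, ?_⟩
      · exact MulEquiv.mk' ⟨fun x => Multiplicative.ofAdd fun _ => Multiplicative.toAdd x,
          fun a => Multiplicative.ofAdd (Multiplicative.toAdd a ()), fun _ => rfl, fun _ => rfl⟩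
          fun _ _ => rfl
      · rfl
      · intro a b x y
        refine ⟨fun _ => ?_, fun _ => rfl⟩
        funext t
        exact t.elim
  | l11 =>
    intro _ hn
    exact absurd hn gen_ne
  | l1 =>
    intro _ hn
    exact absurd hn gen_ne
  | loc S hS =>
    intro h hn
    obtain ⟨hQ, hf, -, -, hc⟩ := hS
    obtain ⟨x, y, hxy, hset⟩ := Set.ncard_eq_two.1 hc
    have hmem : ∀ a b : S.G, S.q a b = x ∨ S.q a b = y := by
      intro a b
      have : S.q a b ∈ {t : S.Q | ∃ a b : S.G, S.q a b = t} := ⟨a, b, rfl⟩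
      rw [hset] at this
      simpa using this
    have h0 : S.q 1 1 = S.zero := q_one hQ 1
    rcases hmem 1 1 with h1 | h1
    · refine isColour_two hQ hn y fun a b => ?_
      rw [← h0, h1]; exact hmem a b
    · refine isColour_two hQ hn x fun a b => ?_
      rw [← h0, h1]; exact (hmem a b).symm
  | prod S T _ _ ih1 ih2 =>
    intro h hn
    have h' : IsQuat (prod (fz S) (fz T)) := h
    exact isColour_prod (ih1 (isQuat_left h') (congrArg Prod.fst hn))
      (ih2 (isQuat_right h') (congrArg Prod.snd hn))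
  | ext S _ ih =>
    intro h hn
    exact isColour_ext (ih (isQuat_of_ext h) (congrArg Prod.fst hn))
  | iso S T _ hST ih =>
    intro h hn
    have hn' : S.neg = 1 := by
      obtain ⟨φ, h1, -⟩ := hST
      apply φ.injective
      rw [h1, hn, map_one]
    obtain ⟨V, K, hV, c, hc, e⟩ := ih (isQuat_of_iso hST h) hn'
    exact ⟨V, K, hV, c, hc, iso_trans (iso_symm hST) e⟩

/-- structures with `-1 = 1` of elementary type are the structures of edge-coloured graphs -/
theorem elem_iff_colour {S : QData} (h : IsQuat S) (hn : S.neg = 1) : Elem S ↔ IsColour S := by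
  constructor
  · intro hE
    exact isColour_of_elem S hE (by rw [fz_eq h]; exact h) hn
  · rintro ⟨V, K, hV, c, hc, e⟩
    have h1 : IsQuat (fz (colourStructure c)) :=
      isQuat_of_iso (iso_symm e) (by rw [fz_eq h]; exact h)
    rw [fz_colour] at h1
    exact Elem.iso _ _ (elem_colour hc h1) (iso_symm e)

end Pool.Agent.U863.CG
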