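import Pool.Agent.U863.CG.Comb
import Pool.Agent.U863.CG.Apex
import Pool.Agent.TH673.VG.Ind
import Pool.Agent.TH673.VG.CritInd

/-! The structures of edge-coloured graphs are of elementary type. -/

set_option autoImplicit false

namespace Pool.Agent.U863.CG

open Pool.Agent.H315R3.ETC Pool.Agent.TH673.VG

lemma fz_of_zero {S : QData} (h : S.q 1 1 = S.zero) : fz S = S := by
  obtain ⟨G, Q, neg, q, zero⟩ := S
  unfold fz
  simp only [QData.mk.injEq, heq_eq_eq, true_and]
  exact h

section
variable {V K : Type} [Fintype V] (c : V → V → Option K)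

lemma fz_colour : fz (colourStructure c) = colourStructure c :=
  fz_of_zero (bt_zero_left (c := c) 0)

lemma fz_prod {V' K' : Type} [Fintype V'] (c' : V' → V' → Option K') :
    fz (prod (colourStructure c) (colourStructure c')) =
      prod (colourStructure c) (colourStructure c') :=
  fz_of_zero (Prod.ext (bt_zero_left (c := c) 0) (bt_zero_left (c := c') 0))

end

variable {V K : Type} [Fintype V] {c : V → V → Option K}

/-- disconnected graphs -/
theorem elem_prod (h : ProperColouring c) (hQ : IsQuat (colourStructure c)) (P : V → Prop)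
    (h1 : ∀ i j, P i → ¬ P j → c i j = none)
    (h2 : ∀ i j k l t, c i j = some t → c k l = some t → P i → P k)
    (hP : ∃ i, P i) (hP' : ∃ i, ¬ P i)
    (IH : ∀ (W : Type) [Fintype W] (c' : W → W → Option K), Fintype.card W < Fintype.card V →
      ProperColouring c' → IsQuat (colourStructure c') → Elem (colourStructure c')) :
    Elem (colourStructure c) := by
  classical
  have hsub : ∀ R : V → Prop, ProperColouring (fun i j : {v // R v} => c i j) := fun R =>
    ⟨fun i j => h.symm i j, fun i => h.irrefl i,
      fun i j k t e1 e2 => Subtype.ext (h.proper i j k t e1 e2)⟩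
  have hi : Iso (prod (colourStructure (fun i j : {v // P v} => c i j))
      (colourStructure (fun i j : {v // ¬ P v} => c i j))) (colourStructure c) := by
    refine iso_prod h.symm (Equiv.sumCompl P) (g₁ := id) (g₂ := id) Function.injective_id
      Function.injective_id ?_ ?_ ?_ ?_
    · intro i j
      rw [Option.map_id]
      rfl
    · intro i j
      rw [Option.map_id]
      rfl
    · intro i j
      exact h1 i j i.2 j.2
    · intro i j k l t h3 h4
      exact k.2 (h2 i j k l t h3 h4 i.2)
  have hQ2 : IsQuat (prod (colourStructure (fun i j : {v // P v} => c i j))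
      (colourStructure (fun i j : {v // ¬ P v} => c i j))) := by
    have := isQuat_of_iso hi (by rw [fz_colour]; exact hQ)
    rwa [fz_prod] at this
  have hc : ∀ (R : V → Prop) [Fintype {v // R v}], (∃ i, ¬ R i) →
      Fintype.card {v // R v} < Fintype.card V := by
    rintro R _ ⟨i, hi⟩
    exact Fintype.card_subtype_lt hi
  obtain ⟨i, hi1⟩ := hP
  refine Elem.iso _ _ (Elem.prod _ _ ?_ ?_) hi
  · exact IH _ _ (hc P hP') (hsub P) (isQuat_left hQ2)
  · exact IH _ _ (hc (fun v => ¬ P v) ⟨i, fun h => h hi1⟩) (hsub _) (isQuat_right hQ2)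

/-- a vertex joined to all others -/
theorem elem_ext (h : ProperColouring c) (hQ : IsQuat (colourStructure c)) (d : V)
    (hd : ∀ v, v ≠ d → c d v ≠ none)
    (IH : ∀ (W : Type) [Fintype W] (c' : W → W → Option K), Fintype.card W < Fintype.card V →
      ProperColouring c' → IsQuat (colourStructure c') → Elem (colourStructure c')) :
    Elem (colourStructure c) := by
  classical
  have hL := linked_of_isQuat hQ
  have h1 : ∀ v : {v // v ≠ d}, ∃ t, c d v = some t := fun v =>
    Option.ne_none_iff_exists'.1 (hd v v.2)
  choose t ht using h1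
  have hp : ProperColouring (fun i j : {v // v ≠ d} => c i j) :=
    ⟨fun i j => h.symm i j, fun i => h.irrefl i,
      fun i j k t e1 e2 => Subtype.ext (h.proper i j k t e1 e2)⟩
  have hi : Iso (ext (colourStructure (fun i j : {v // v ≠ d} => c i j))) (colourStructure c) := by
    refine iso_ext h.symm (Equiv.optionSubtypeNe d) (g := id) Function.injective_id (h := t)
      ?_ ?_ ?_ ?_ ?_
    · intro i j hij
      exact Subtype.ext (h.proper d i j (t i) (ht i) (by rw [hij]; exact ht j))
    · rw [Equiv.optionSubtypeNe_none]
      exact h.irrefl d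
    · intro i
      rw [Equiv.optionSubtypeNe_none, Equiv.optionSubtypeNe_some]
      exact ht i
    · intro i j
      rw [Equiv.optionSubtypeNe_some, Equiv.optionSubtypeNe_some, Option.map_id]
      rfl
    · intro i j k hk
      rw [Equiv.optionSubtypeNe_some, Equiv.optionSubtypeNe_some] at hk
      have h3 := no_edge h hL ((h.symm k d).trans (ht k)) hk (Ne.symm j.2)
      rw [h.symm, ht i] at h3
      exact Option.some_ne_none _ h3
  have hz : fz (ext (colourStructure (fun i j : {v // v ≠ d} => c i j))) =
      ext (colourStructure (fun i j : {v // v ≠ d} => c i j)) := by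
    refine fz_of_zero (Prod.ext (bt_zero_left (c := fun i j : {v // v ≠ d} => c i j) 0) ?_)
    show pw (pw _ 1) 1 * pw _ 1 * pw _ 1 = 1
    unfold pw
    simp
  have hQ2 : IsQuat (fz (ext (colourStructure (fun i j : {v // v ≠ d} => c i j)))) :=
    isQuat_of_iso hi (by rw [fz_colour]; exact hQ)
  have hQ3 := isQuat_of_ext hQ2
  rw [fz_colour] at hQ3
  refine Elem.iso _ _ (Elem.ext _ (IH _ _ ?_ hp hQ3)) hi
  exact Fintype.card_subtype_lt (p := fun v => v ≠ d) (x := d) (by simp)

/-- perfect matchings with one colour -/
theorem elem_local (h : ProperColouring c) (hQ : IsQuat (colourStructure c)) (t : K)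
    (h1 : ∀ v, ∃ w, c v w = some t) (h2 : ∀ v w s, c v w = some s → s = t)
    (h3 : 3 ≤ Fintype.card V) : Elem (colourStructure c) := by
  classical
  have hv : ∀ a b : V → ZMod 2, bt c a b = 0 ∨ bt c a b = Pi.single t 1 := by
    intro a b
    have h4 : ∀ s, s ≠ t → bt c a b s = 0 := fun s hs =>
      bt_unused _ _ _ fun i j hij => hs (h2 i j s hij)
    have h5 : bt c a b t = 0 ∨ bt c a b t = 1 := by
      generalize bt c a b t = z
      revert z
      decide
    rcases h5 with h5 | h5
    · left
      funext s
      by_cases hs : s = t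
      · rw [hs, h5]; rfl
      · rw [h4 s hs]; rfl
    · right
      funext s
      by_cases hs : s = t
      · rw [hs, h5, Pi.single_eq_same]
      · rw [h4 s hs, Pi.single_eq_of_ne hs]
  refine Elem.loc _ ⟨hQ, ?_, ?_, ?_, ?_⟩
  · show Finite (Multiplicative (V → ZMod 2))
    infer_instance
  · show 8 ≤ Nat.card (Multiplicative (V → ZMod 2))
    have : Nat.card (Multiplicative (V → ZMod 2)) = 2 ^ Fintype.card V := by
      rw [Nat.card_congr (Multiplicative.toAdd (α := V → ZMod 2)), Nat.card_fun, Nat.card_zmod,
        Nat.card_eq_fintype_card]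
    rw [this]
    calc 8 = 2 ^ 3 := by norm_num
      _ ≤ _ := Nat.pow_le_pow_right (by norm_num) h3
  · intro a ha
    funext v
    obtain ⟨w, hw⟩ := h1 v
    have h4 : bt c (Multiplicative.toAdd a) (e w) = 0 := ha (Multiplicative.ofAdd (e w))
    rw [bt_symm h] at h4
    have h5 := congrFun h4 t
    rw [bt_some h ((h.symm w v).trans hw)] at h5
    exact h5
  · have hset : {x : (colourStructure c).Q | ∃ a b, (colourStructure c).q a b = x} =
        {(0 : K → ZMod 2), Pi.single t 1} := by
      ext x
      constructor
      · rintro ⟨a, b, rfl⟩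
        exact hv _ _
      · rintro (hx | hx)
        · refine ⟨1, 1, ?_⟩
          rw [hx]
          exact bt_zero_left (c := c) 0
        · have hne : Nonempty V := Fintype.card_pos_iff.1 (by omega)
          obtain ⟨v⟩ := hne
          obtain ⟨w, hw⟩ := h1 v
          refine ⟨Multiplicative.ofAdd (e v), Multiplicative.ofAdd (e w), ?_⟩
          rw [Set.mem_singleton_iff.1 hx]
          refine (bt_edge h hw).trans ?_
          congr
    have hne : (0 : K → ZMod 2) ≠ Pi.single t 1 := by
      intro h6
      have h7 := congrFun h6 t
      rw [Pi.single_eq_same] at h7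
      exact zero_ne_one h7
    rw [hset]
    exact Set.ncard_pair hne

/-- edge-coloured graphs without vertices -/
theorem elem_empty (hV : IsEmpty V) : Elem (colourStructure c) := by
  refine Elem.iso _ _ Elem.l0 ⟨?_, ?_, ?_⟩
  · refine MulEquiv.mk' ⟨fun _ => 1, fun _ => (), fun _ => rfl, fun a => ?_⟩ fun _ _ => ?_
    · funext v
      exact hV.elim v
    · funext v
      exact hV.elim v
  · funext v
    exact hV.elim v
  · intro a b x y
    refine ⟨fun _ => ?_, fun _ => rfl⟩
    rfl

/-- one vertex -/
theorem elem_one (hc : ∀ i j, c i j = none) (hV : Fintype.card V = 1) :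
    Elem (colourStructure c) := by
  classical
  obtain ⟨v, hv⟩ := Fintype.card_eq_one_iff.1 hV
  refine Elem.iso _ _ Elem.l10 ⟨?_, ?_, ?_⟩
  · refine MulEquiv.mk' ⟨fun x => Multiplicative.ofAdd fun _ => Multiplicative.toAdd x,
      fun a => Multiplicative.ofAdd (Multiplicative.toAdd a v), fun _ => rfl, fun a => ?_⟩
      fun _ _ => rfl
    funext w
    rw [hv w]
    rfl
  · rfl
  · intro a b x y
    refine ⟨fun _ => ?_, fun _ => rfl⟩
    have h1 : ∀ z w : V → ZMod 2, bt c z w = 0 := fun z w => by
      funext t
      exact bt_unused _ _ _ fun i j => by rw [hc]; simp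
    exact (h1 _ _).trans (h1 _ _).symm

theorem elem_colour_aux (K : Type) (n : ℕ) : ∀ (V : Type) [Fintype V] (c : V → V → Option K),
    Fintype.card V = n → ProperColouring c → IsQuat (colourStructure c) →
    Elem (colourStructure c) := by
  classical
  induction n using Nat.strong_induction_on with
  | _ n ih =>
  intro V _ c hn h hQ
  have IH : ∀ (W : Type) [Fintype W] (c' : W → W → Option K), Fintype.card W < Fintype.card V →
      ProperColouring c' → IsQuat (colourStructure c') → Elem (colourStructure c') := by
    intro W _ c' hW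
    exact ih _ (hn ▸ hW) W c' rfl
  have hL := linked_of_isQuat hQ
  by_cases hV : IsEmpty V
  · exact elem_empty hV
  rw [not_isEmpty_iff] at hV
  obtain ⟨d, -, hd⟩ := Finset.exists_max_image (Finset.univ : Finset V)
    (fun i => (Finset.univ.filter fun j => c i j ≠ none).card) Finset.univ_nonempty
  have hdom : ∀ {i p : V}, c d i ≠ none → c i p ≠ none → p ≠ d → c d p ≠ none := by
    intro i p
    refine dominate h hL fun i => ?_
    convert hd i (Finset.mem_univ i)
  by_cases hall : ∀ v, v ≠ d → c d v ≠ none
  · exact elem_ext h hQ d hall IH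
  push Not at hall
  obtain ⟨z, hzd, hz⟩ := hall
  -- the number of neighbours of `d`
  by_cases h0 : ∀ j, c d j = none
  · -- no edges at all
    have hno : ∀ i j, c i j = none := by
      intro i j
      by_contra hij
      have h1 := hd i (Finset.mem_univ i)
      have h2 : (Finset.univ.filter fun j => c d j ≠ none) = ∅ := by
        rw [Finset.filter_eq_empty_iff]
        intro j _ hj
        exact hj (h0 j)
      have h3 : 0 < (Finset.univ.filter fun j => c i j ≠ none).card := by
        refine Finset.card_pos.2 ⟨j, ?_⟩
        rw [Finset.mem_filter]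
        exact ⟨Finset.mem_univ j, hij⟩
      simp only [h2, Finset.card_empty] at h1
      omega
    refine elem_prod h hQ (fun v => v = d) (fun i j _ _ => hno i j) ?_ ⟨d, rfl⟩ ⟨z, hzd⟩ IH
    intro i j k l t e1
    rw [hno] at e1
    exact absurd e1.symm (Option.some_ne_none t)
  push Not at h0
  obtain ⟨j, hj⟩ := h0
  obtain ⟨t, ht⟩ := Option.ne_none_iff_exists'.1 hj
  have hjd : j ≠ d := by
    rintro rfl
    exact hj (h.irrefl j)
  by_cases h2 : ∃ m, m ≠ j ∧ c d m ≠ none
  · -- at least two neighbours
    obtain ⟨m, hmj, hm⟩ := h2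
    have hmd : m ≠ d := by
      rintro rfl
      exact hm (h.irrefl m)
    refine elem_prod h hQ (fun v => v = d ∨ c d v ≠ none) ?_ ?_ ⟨d, Or.inl rfl⟩
      ⟨z, fun e => e.elim hzd (fun e => e hz)⟩ IH
    · intro i k hi hk
      rw [not_or, not_not] at hk
      rcases hi with rfl | hi
      · exact hk.2
      · by_contra hik
        exact hdom hi hik hk.1 hk.2
    · intro i i' k k' s e1 e2 hi
      by_contra hk
      rw [not_or, not_not] at hk
      -- `k` and `k'` are not in the component of `d`
      have hcl : ∀ u w, c u w ≠ none → (w = d ∨ c d w ≠ none) → u = d ∨ c d u ≠ none := by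
        intro u w huw hw
        by_cases hu : u = d
        · exact Or.inl hu
        · right
          rcases hw with rfl | hw
          · rw [h.symm]; exact huw
          · exact hdom hw (by rw [h.symm]; exact huw) hu
      have hk' : ¬ (k' = d ∨ c d k' ≠ none) := fun h3 => by
        have := hcl k k' (by rw [e2]; simp) h3
        rcases this with h4 | h4
        · exact hk.1 h4
        · exact h4 hk.2
      rw [not_or, not_not] at hk'
      have hne : ∀ u, (u = d ∨ c d u ≠ none) → u ≠ k ∧ u ≠ k' := by
        rintro u hu
        constructor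
        · rintro rfl
          rcases hu with h4 | h4
          · exact hk.1 h4
          · exact h4 hk.2
        · rintro rfl
          rcases hu with h4 | h4
          · exact hk'.1 h4
          · exact h4 hk'.2
      have hi' : i' = d ∨ c d i' ≠ none := hcl i' i (by rw [h.symm, e1]; simp) hi
      -- a third vertex `u` of the component joined to `i` or `i'`
      have h5 : ∃ u, (u = d ∨ c d u ≠ none) ∧ ((c u i ≠ none ∧ u ≠ i') ∨ (c u i' ≠ none ∧ u ≠ i)) := by
        by_cases hid : i = d
        · subst hid
          by_cases hji : j = i'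
          · exact ⟨m, Or.inr hm, Or.inl ⟨by rw [h.symm]; exact hm, by rw [← hji]; exact hmj⟩⟩
          · exact ⟨j, Or.inr hj, Or.inl ⟨by rw [h.symm]; exact hj, hji⟩⟩
        · by_cases hid' : i' = d
          · subst hid'
            by_cases hji : j = i
            · exact ⟨m, Or.inr hm, Or.inr ⟨by rw [h.symm]; exact hm, by rw [← hji]; exact hmj⟩⟩
            · exact ⟨j, Or.inr hj, Or.inr ⟨by rw [h.symm]; exact hj, hji⟩⟩
          · exact ⟨d, Or.inl rfl, Or.inl ⟨hi.resolve_left hid, Ne.symm hid'⟩⟩
      obtain ⟨u, hu, hu2⟩ := h5
      have h6 : c u k ≠ none := by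
        rcases hu2 with ⟨h7, h8⟩ | ⟨h7, h8⟩
        · exact twin h hL e1 e2 (hne i hi).1 (hne i hi).2 h7 h8
        · exact twin h hL ((h.symm i' i).trans e1) e2 (hne i' hi').1 (hne i' hi').2 h7 h8
      rcases hcl k u (by rw [h.symm]; exact h6) hu with h7 | h7
      · exact hk.1 h7
      · exact h7 hk.2
  · -- exactly one neighbour: all vertices have at most one neighbour
    push Not at h2
    have hdeg : ∀ u v w, c u v ≠ none → c u w ≠ none → v = w := by
      intro u v w h3 h4
      by_contra hvw
      have h5 := hd u (Finset.mem_univ u)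
      have h6 : (Finset.univ.filter fun k => c d k ≠ none) = {j} := by
        ext k
        rw [Finset.mem_filter, Finset.mem_singleton]
        constructor
        · rintro ⟨-, hk⟩
          by_contra hkj
          exact hk (h2 k hkj)
        · rintro rfl
          exact ⟨Finset.mem_univ k, hj⟩
      have h7 : ({v, w} : Finset V) ⊆ Finset.univ.filter fun k => c u k ≠ none := by
        intro k hk
        rw [Finset.mem_insert, Finset.mem_singleton] at hk
        rw [Finset.mem_filter]
        rcases hk with rfl | rfl
        · exact ⟨Finset.mem_univ k, h3⟩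
        · exact ⟨Finset.mem_univ k, h4⟩
      have h8 := Finset.card_le_card h7
      rw [Finset.card_pair hvw] at h8
      simp only [h6, Finset.card_singleton] at h5
      omega
    by_cases hP : ∀ v, ∃ w, c v w = some t
    · refine elem_local h hQ t hP ?_ ?_
      · intro v w s hs
        obtain ⟨w', hw'⟩ := hP v
        have := hdeg v w w' (by rw [hs]; simp) (by rw [hw']; simp)
        subst this
        rw [hs] at hw'
        exact Option.some.inj hw'
      · have h3 : ({d, j, z} : Finset V).card = 3 := by
          rw [Finset.card_eq_three]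
          refine ⟨d, j, z, Ne.symm hjd, Ne.symm hzd, ?_, rfl⟩
          rintro rfl
          exact hj hz
        rw [← h3]
        exact Finset.card_le_univ _
    · push Not at hP
      obtain ⟨v, hv⟩ := hP
      refine elem_prod h hQ (fun v => ∃ w, c v w = some t) ?_ ?_ ⟨d, j, ht⟩
        ⟨v, fun ⟨w, hw⟩ => hv w hw⟩ IH
      · rintro i k ⟨w, hw⟩ hk
        by_contra hik
        have := hdeg i k w hik (by rw [hw]; simp)
        subst this
        exact hk ⟨i, (h.symm k i).trans hw⟩
      · rintro i i' k k' s e1 e2 ⟨w, hw⟩
        have := hdeg i i' w (by rw [e1]; simp) (by rw [hw]; simp)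
        subst this
        rw [e1] at hw
        rw [Option.some.inj hw] at e2
        exact ⟨k', e2⟩

/-- the structures of properly edge-coloured graphs are of elementary type -/
theorem elem_colour {V K : Type} [Fintype V] {c : V → V → Option K} (h : ProperColouring c)
    (hQ : IsQuat (colourStructure c)) : Elem (colourStructure c) :=
  elem_colour_aux K _ V c rfl h hQ

end Pool.Agent.U863.CG
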